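import Mathlib

set_option autoImplicit false

/-!
# A divergence Borel-Cantelli lemma with a local second moment bound

The sets `E m` of real numbers have in every short interval a proportion of at least `c / m`, and the
proportion of `E m ∩ E n` is at most `K β(m, n)`. If the sum of `β(m, n)` over arbitrarily late finite
subsets of `S` is at most `B` times the square of the sum of `1 / m`, then almost every point is in
infinitely many of the sets `E m`, `m ∈ S`.
-/

namespace Pool.Agent.Q267.DV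

open MeasureTheory Filter Topology

/-- a set which misses a fixed proportion of every interval is null (as in the starting file
`Pool.Agent.H447R2.ML.P8`) -/
lemma null_of_density {B : Set ℝ} (hB : MeasurableSet B) {b0 b1 κ : ℝ} (hκ : 0 < κ)
    (hsub : B ⊆ Set.Ioo b0 b1)
    (h : ∀ s t : ℝ, b0 < s → s < t → t < b1 →
      volume.real (B ∩ Set.Ioc s t) ≤ (1 - κ) * (t - s)) : volume B = 0 := by
  by_contra hne
  have hB1 := Besicovitch.ae_tendsto_measure_inter_div volume B
  rw [ae_restrict_iff' hB] at hB1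
  have hex : ∃ x ∈ B, Tendsto (fun r => volume (B ∩ Metric.closedBall x r) /
      volume (Metric.closedBall x r)) (𝓝[>] 0) (𝓝 1) := by
    by_contra hcon
    push Not at hcon
    apply hne
    rw [ae_iff] at hB1
    refine measure_mono_null (fun x hx => ?_) hB1
    simp only [Set.mem_ofPred_eq, Classical.not_imp]
    exact ⟨hx, hcon x hx⟩
  obtain ⟨x, hx, hlim⟩ := hex
  have hxI := hsub hx
  have hlt : ∀ᶠ r in 𝓝[>] (0 : ℝ), ENNReal.ofReal (1 - κ) < volume (B ∩ Metric.closedBall x r) /
      volume (Metric.closedBall x r) := by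
    refine hlim.eventually_const_lt ?_
    rw [ENNReal.ofReal_lt_one]
    linarith
  have hsmall : ∀ᶠ r in 𝓝[>] (0 : ℝ), r < min (x - b0) (b1 - x) := by
    refine nhdsWithin_le_nhds (Iio_mem_nhds ?_)
    exact lt_min (by linarith [hxI.1]) (by linarith [hxI.2])
  have hpos : ∀ᶠ r in 𝓝[>] (0 : ℝ), 0 < r := self_mem_nhdsWithin
  obtain ⟨r, hr1, hr2, hr3⟩ := (hlt.and (hsmall.and hpos)).exists
  have h2r : 0 < 2 * r := by linarith
  have hr4 := lt_min_iff.1 hr2
  have e1 : Metric.closedBall x r = Set.Icc (x - r) (x + r) := Real.closedBall_eq_Icc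
  have hvol : volume (Metric.closedBall x r) = ENNReal.ofReal (2 * r) := by
    rw [e1, Real.volume_Icc]; congr 1; ring
  have hae : volume (B ∩ Metric.closedBall x r) = volume (B ∩ Set.Ioc (x - r) (x + r)) := by
    rw [e1]
    refine measure_congr ?_
    exact (ae_eq_refl B).inter Ioc_ae_eq_Icc.symm
  have hh := h (x - r) (x + r) (by linarith) (by linarith) (by linarith)
  have hfin : volume (B ∩ Set.Ioc (x - r) (x + r)) ≠ ⊤ :=
    ne_top_of_le_ne_top (by simp) (measure_mono Set.inter_subset_right)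
  have hv2 : volume (B ∩ Set.Ioc (x - r) (x + r)) ≤ ENNReal.ofReal ((1 - κ) * (2 * r)) := by
    rw [← ENNReal.ofReal_toReal hfin]
    refine ENNReal.ofReal_le_ofReal ?_
    refine hh.trans (le_of_eq ?_)
    ring
  rw [hvol, hae] at hr1
  rw [ENNReal.lt_div_iff_mul_lt (Or.inl (by simpa using hr3))
    (Or.inl ENNReal.ofReal_ne_top)] at hr1
  rcases le_or_gt 0 (1 - κ) with h1 | h1
  · rw [← ENNReal.ofReal_mul h1] at hr1
    exact absurd hv2 (not_le.2 hr1)
  · have h3 : (1 - κ) * (2 * r) ≤ 0 := by nlinarith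
    rw [ENNReal.ofReal_of_nonpos h3] at hv2
    have h4 : ENNReal.ofReal (1 - κ) = 0 := ENNReal.ofReal_of_nonpos h1.le
    rw [h4, zero_mul] at hr1
    exact absurd hv2 (not_le.2 hr1)

/-- the second moment inequality -/
lemma second {μ : Measure ℝ} [IsFiniteMeasure μ] {E : ℕ → Set ℝ} (hE : ∀ m, MeasurableSet (E m))
    (T : Finset ℕ) : (∑ m ∈ T, μ.real (E m)) ^ 2 ≤
      (∑ m ∈ T, ∑ n ∈ T, μ.real (E m ∩ E n)) * μ.real (⋃ m ∈ T, E m) := by
  classical
  set U : Set ℝ := ⋃ m ∈ T, E m with hU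
  have hUm : MeasurableSet U := Finset.measurableSet_biUnion _ fun m _ => hE m
  set f : ℝ → ℝ := fun x => ∑ m ∈ T, (E m).indicator (fun _ => (1 : ℝ)) x with hf
  set g : ℝ → ℝ := U.indicator (fun _ => (1 : ℝ)) with hg
  have hi : ∀ A : Set ℝ, MeasurableSet A → Integrable (A.indicator (fun _ => (1 : ℝ))) μ := fun A hA =>
    (integrable_const (1 : ℝ)).indicator hA
  have hii : ∀ A : Set ℝ, MeasurableSet A → ∫ x, A.indicator (fun _ => (1 : ℝ)) x ∂μ = μ.real A :=
    fun A hA => by
      rw [integral_indicator_const _ hA]; simp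
  have hfg : ∀ x, f x * g x = f x := by
    intro x
    by_cases hx : x ∈ U
    · simp [hg, hx]
    · have : f x = 0 := by
        rw [hf]
        refine Finset.sum_eq_zero fun m hm => ?_
        rw [Set.indicator_of_notMem]
        intro h
        exact hx (Set.mem_biUnion (Finset.mem_coe.2 hm) h)
      rw [this, zero_mul]
  have hgg : ∀ x, g x * g x = g x := by
    intro x
    by_cases hx : x ∈ U <;> simp [hg, hx]
  have hff : ∀ x, f x * f x = ∑ m ∈ T, ∑ n ∈ T, (E m ∩ E n).indicator (fun _ => (1 : ℝ)) x := by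
    intro x
    rw [hf]
    simp only
    rw [Finset.sum_mul_sum]
    refine Finset.sum_congr rfl fun m _ => Finset.sum_congr rfl fun n _ => ?_
    by_cases h1 : x ∈ E m <;> by_cases h2 : x ∈ E n <;> simp [h1, h2]
  have if1 : Integrable f μ := integrable_finsetSum _ fun m _ => hi _ (hE m)
  have if2 : Integrable (fun x => f x * f x) μ := by
    simp only [hff]
    exact integrable_finsetSum _ fun m _ => integrable_finsetSum _ fun n _ =>
      hi _ ((hE m).inter (hE n))
  have ig : Integrable g μ := hi _ hUm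
  have A1 : ∫ x, f x ∂μ = ∑ m ∈ T, μ.real (E m) := by
    rw [hf]
    simp only
    rw [integral_finsetSum _ fun m _ => hi _ (hE m)]
    exact Finset.sum_congr rfl fun m _ => hii _ (hE m)
  have A2 : ∫ x, f x * f x ∂μ = ∑ m ∈ T, ∑ n ∈ T, μ.real (E m ∩ E n) := by
    simp only [hff]
    rw [integral_finsetSum _ fun m _ => integrable_finsetSum _ fun n _ =>
      hi _ ((hE m).inter (hE n))]
    refine Finset.sum_congr rfl fun m _ => ?_
    rw [integral_finsetSum _ fun n _ => hi _ ((hE m).inter (hE n))]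
    exact Finset.sum_congr rfl fun n _ => hii _ ((hE m).inter (hE n))
  have A3 : ∫ x, g x ∂μ = μ.real U := hii _ hUm
  have key : ∀ l : ℝ, 0 ≤ μ.real U * (l * l) + (-2 * ∑ m ∈ T, μ.real (E m)) * l +
      ∑ m ∈ T, ∑ n ∈ T, μ.real (E m ∩ E n) := by
    intro l
    have h0 : 0 ≤ ∫ x, (f x - l * g x) * (f x - l * g x) ∂μ :=
      integral_nonneg fun x => mul_self_nonneg _
    have e : ∀ x, (f x - l * g x) * (f x - l * g x) = f x * f x - (2 * l) * f x + (l * l) * g x := by
      intro x
      have e1 : (f x - l * g x) * (f x - l * g x) = f x * f x - (2 * l) * (f x * g x) +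
          (l * l) * (g x * g x) := by ring
      rw [e1, hfg, hgg]
    simp only [e] at h0
    have i1 : Integrable (fun x => f x * f x - (2 * l) * f x) μ := if2.sub (if1.const_mul (2 * l))
    have i2 : Integrable (fun x => (l * l) * g x) μ := ig.const_mul (l * l)
    have i3 : Integrable (fun x => (2 * l) * f x) μ := if1.const_mul (2 * l)
    rw [integral_add i1 i2, integral_sub if2 i3, integral_const_mul, integral_const_mul, A1, A2,
      A3] at h0
    linarith
  have h1 := discrim_le_zero key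
  unfold discrim at h1
  nlinarith

/-- **Divergence Borel-Cantelli with local second moments.** -/
theorem full {E : ℕ → Set ℝ} (hE : ∀ m, MeasurableSet (E m)) {a0 a1 c K : ℝ} (hc : 0 < c)
    (hK : 0 < K) (β : ℕ → ℕ → ℝ)
    (h : ∀ s t : ℝ, a0 < s → s < t → t < a1 → ∀ᶠ M : ℕ in atTop,
      (∀ m ≥ M, c * (t - s) / m ≤ volume.real (E m ∩ Set.Ioc s t)) ∧
      (∀ m ≥ M, ∀ n ≥ M, volume.real (E m ∩ E n ∩ Set.Ioc s t) ≤ K * (t - s) * β m n))
    (S : Set ℕ) {B : ℝ} (hB : 0 < B)
    (hS : ∀ M : ℕ, ∃ T : Finset ℕ, (∀ m ∈ T, m ∈ S ∧ M ≤ m) ∧ 0 < ∑ m ∈ T, 1 / (m : ℝ) ∧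
      ∑ m ∈ T, ∑ n ∈ T, β m n ≤ B * (∑ m ∈ T, 1 / (m : ℝ)) ^ 2) :
    ∀ᵐ x : ℝ, x ∈ Set.Ioo a0 a1 → ∀ M : ℕ, ∃ m ∈ S, M ≤ m ∧ x ∈ E m := by
  have key : ∀ M0 : ℕ, ∀ᵐ x : ℝ, x ∈ Set.Ioo a0 a1 → ∃ m ∈ S, M0 ≤ m ∧ x ∈ E m := by
    intro M0
    set F : Set ℝ := ⋃ m ∈ {m : ℕ | m ∈ S ∧ M0 ≤ m}, E m with hF
    have hFm : MeasurableSet F := MeasurableSet.biUnion (Set.to_countable _) fun m _ => hE m
    have hnull : volume (Set.Ioo a0 a1 \ F) = 0 := by
      refine null_of_density (κ := c ^ 2 / (K * B)) (measurableSet_Ioo.diff hFm) (by positivity)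
        Set.sdiff_subset fun s t hs hst ht => ?_
      obtain ⟨M, hM⟩ := eventually_atTop.1 (h s t hs hst ht)
      obtain ⟨h1, h2⟩ := hM M le_rfl
      obtain ⟨T, hT1, hT2, hT3⟩ := hS (max M M0)
      set v := ∑ m ∈ T, 1 / (m : ℝ) with hv
      have hts : 0 < t - s := by linarith
      set μ : Measure ℝ := volume.restrict (Set.Ioc s t) with hμ
      have hμr : ∀ A : Set ℝ, MeasurableSet A → μ.real A = volume.real (A ∩ Set.Ioc s t) := by
        intro A hA
        rw [hμ, measureReal_restrict_apply hA]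
      have s1 := second (μ := μ) hE T
      have s2 : c * (t - s) * v ≤ ∑ m ∈ T, μ.real (E m) := by
        rw [hv, Finset.mul_sum]
        refine Finset.sum_le_sum fun m hm => ?_
        rw [hμr _ (hE m)]
        have := h1 m ((le_max_left _ _).trans (hT1 m hm).2)
        calc c * (t - s) * (1 / (m : ℝ)) = c * (t - s) / m := by ring
          _ ≤ _ := this
      have s3 : ∑ m ∈ T, ∑ n ∈ T, μ.real (E m ∩ E n) ≤ K * (t - s) * (B * v ^ 2) := by
        calc ∑ m ∈ T, ∑ n ∈ T, μ.real (E m ∩ E n) ≤ ∑ m ∈ T, ∑ n ∈ T, K * (t - s) * β m n := by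
              refine Finset.sum_le_sum fun m hm => Finset.sum_le_sum fun n hn => ?_
              rw [hμr _ ((hE m).inter (hE n))]
              exact h2 m ((le_max_left _ _).trans (hT1 m hm).2) n
                ((le_max_left _ _).trans (hT1 n hn).2)
          _ = K * (t - s) * ∑ m ∈ T, ∑ n ∈ T, β m n := by
              rw [Finset.mul_sum]
              refine Finset.sum_congr rfl fun m _ => ?_
              rw [Finset.mul_sum]
          _ ≤ _ := mul_le_mul_of_nonneg_left hT3 (by positivity)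
      set u := μ.real (⋃ m ∈ T, E m) with hu
      have hu0 : 0 ≤ u := measureReal_nonneg
      have s4 : (c * (t - s) * v) ^ 2 ≤ K * (t - s) * (B * v ^ 2) * u := by
        calc (c * (t - s) * v) ^ 2 ≤ (∑ m ∈ T, μ.real (E m)) ^ 2 :=
              pow_le_pow_left₀ (by positivity) s2 2
          _ ≤ _ := s1
          _ ≤ _ := mul_le_mul_of_nonneg_right s3 hu0
      have s5 : c ^ 2 / (K * B) * (t - s) ≤ u := by
        have e : (0 : ℝ) < (t - s) * v ^ 2 := by positivity
        have h3 : ((t - s) * v ^ 2) * (c ^ 2 * (t - s)) ≤ ((t - s) * v ^ 2) * (K * B * u) := by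
          nlinarith
        have h4 := le_of_mul_le_mul_left h3 e
        rw [div_mul_eq_mul_div, div_le_iff₀ (by positivity)]
        linarith
      have hUF : (⋃ m ∈ T, E m) ⊆ F := by
        intro x hx
        simp only [Set.mem_iUnion] at hx
        obtain ⟨m, hm, hxm⟩ := hx
        rw [hF]
        refine Set.mem_biUnion (show m ∈ {m : ℕ | m ∈ S ∧ M0 ≤ m} from
          ⟨(hT1 m hm).1, (le_max_right _ _).trans (hT1 m hm).2⟩) hxm
      have hUm : MeasurableSet (⋃ m ∈ T, E m) := Finset.measurableSet_biUnion _ fun m _ => hE m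
      have s6 : volume.real ((Set.Ioo a0 a1 \ F) ∩ Set.Ioc s t) + u ≤ t - s := by
        rw [hu, hμr _ hUm]
        have hdis : Disjoint ((Set.Ioo a0 a1 \ F) ∩ Set.Ioc s t)
            ((⋃ m ∈ T, E m) ∩ Set.Ioc s t) := by
          rw [Set.disjoint_left]
          rintro x ⟨⟨_, hxF⟩, _⟩ ⟨hxU, _⟩
          exact hxF (hUF hxU)
        rw [← measureReal_union hdis (hUm.inter measurableSet_Ioc)
          (ne_top_of_le_ne_top (by simp) (measure_mono (Set.inter_subset_right (t := Set.Ioc s t))))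
          (ne_top_of_le_ne_top (by simp) (measure_mono (Set.inter_subset_right (t := Set.Ioc s t))))]
        calc volume.real ((Set.Ioo a0 a1 \ F) ∩ Set.Ioc s t ∪ (⋃ m ∈ T, E m) ∩ Set.Ioc s t) ≤
              volume.real (Set.Ioc s t) := measureReal_mono (Set.union_subset Set.inter_subset_right
                Set.inter_subset_right) (by simp)
          _ = t - s := by rw [Real.volume_real_Ioc_of_le hst.le]
      linarith
    rw [ae_iff]
    refine measure_mono_null (fun x hx => ?_) hnull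
    simp only [Set.mem_ofPred_eq, Classical.not_imp] at hx
    refine ⟨hx.1, fun hxF => hx.2 ?_⟩
    rw [hF] at hxF
    simp only [Set.mem_iUnion] at hxF
    obtain ⟨m, hm, hxm⟩ := hxF
    exact ⟨m, hm.1, hm.2, hxm⟩
  filter_upwards [ae_all_iff.2 key] with x hx hI M
  exact hx M hI

end Pool.Agent.Q267.DV
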