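import Mathlib
import Pool.Agent.H305R2.MertensM
import Pool.Agent.H262R2.UK.Basic

set_option autoImplicit false

/-!
# Primes: reciprocals in windows and short intervals
-/

namespace Pool.Agent.Q267.DV

open Filter Topology Finset

lemma floor_exp_ge {Y : ℝ} (hY : 1 ≤ Y) : Real.exp (Y - 1) ≤ (⌊Real.exp Y⌋₊ : ℝ) := by
  have h1 := Nat.lt_floor_add_one (Real.exp Y)
  have e : Real.exp Y = Real.exp (Y - 1) * Real.exp 1 := by rw [← Real.exp_add]; congr 1; ring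
  have h5 : (2 : ℝ) ≤ Real.exp 1 := by linarith [Real.add_one_le_exp (1 : ℝ)]
  have h6 : 1 ≤ Real.exp (Y - 1) := Real.one_le_exp (by linarith)
  nlinarith

lemma recip_tendsto : ∃ M : ℝ, Tendsto (fun Y : ℝ =>
    ∑ p ∈ (Icc 1 ⌊Real.exp Y⌋₊).filter Nat.Prime, (1 : ℝ) / p - Real.log Y) atTop (𝓝 M) := by
  obtain ⟨M, hM⟩ := Pool.Agent.H305R2.mertens_inv_tendsto
  refine ⟨M, ?_⟩
  have hfl : Tendsto (fun Y : ℝ => ⌊Real.exp Y⌋₊) atTop atTop :=
    tendsto_nat_floor_atTop.comp Real.tendsto_exp_atTop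
  have h1 := hM.comp hfl
  have h2 : Tendsto (fun Y : ℝ => Real.log (Real.log (⌊Real.exp Y⌋₊ : ℝ)) - Real.log Y) atTop (𝓝 0) := by
    have h3 : Tendsto (fun Y : ℝ => Real.log (1 - 1 / Y)) atTop (𝓝 0) := by
      have h0 : Tendsto (fun Y : ℝ => 1 / Y) atTop (𝓝 (0 : ℝ)) := by
        simpa [one_div] using (tendsto_inv_atTop_zero : Tendsto (fun Y : ℝ => Y⁻¹) atTop (𝓝 0))
      have h4 : Tendsto (fun Y : ℝ => 1 - 1 / Y) atTop (𝓝 ((1 : ℝ) - 0)) :=
        tendsto_const_nhds.sub h0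
      rw [sub_zero] at h4
      have h5 := (Real.continuousAt_log one_ne_zero).tendsto.comp h4
      rw [Real.log_one] at h5
      exact h5
    refine tendsto_of_tendsto_of_tendsto_of_le_of_le' h3 tendsto_const_nhds ?_ ?_
    · filter_upwards [eventually_ge_atTop 2] with Y hY
      have h5 := floor_exp_ge (show 1 ≤ Y by linarith)
      have h6 : Y - 1 ≤ Real.log (⌊Real.exp Y⌋₊ : ℝ) := by
        rw [Real.le_log_iff_exp_le (lt_of_lt_of_le (Real.exp_pos _) h5)]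
        exact h5
      have h7 : Real.log (1 - 1 / Y) = Real.log (Y - 1) - Real.log Y := by
        rw [← Real.log_div (by linarith) (by linarith)]
        congr 1
        field_simp
      rw [h7]
      have := Real.log_le_log (by linarith : 0 < Y - 1) h6
      linarith
    · filter_upwards [eventually_ge_atTop 2] with Y hY
      have h5 := floor_exp_ge (show 1 ≤ Y by linarith)
      have h6 : Y - 1 ≤ Real.log (⌊Real.exp Y⌋₊ : ℝ) := by
        rw [Real.le_log_iff_exp_le (lt_of_lt_of_le (Real.exp_pos _) h5)]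
        exact h5
      have h7 : Real.log (⌊Real.exp Y⌋₊ : ℝ) ≤ Y := by
        have h8 := Nat.floor_le (Real.exp_pos Y).le
        have h9 := Real.log_le_log (lt_of_lt_of_le (Real.exp_pos _) h5) h8
        rwa [Real.log_exp] at h9
      have := Real.log_le_log (by linarith) h7
      linarith
  have h3 := h1.add h2
  rw [add_zero] at h3
  refine h3.congr fun Y => ?_
  simp only [Function.comp]
  ring

lemma recip {ε : ℝ} (hε : 0 < ε) : ∃ A : ℝ, ∀ Y0 Y1 : ℝ, A ≤ Y0 → Y0 ≤ Y1 →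
    |∑ p ∈ (Ioc ⌊Real.exp Y0⌋₊ ⌊Real.exp Y1⌋₊).filter Nat.Prime, (1 : ℝ) / p -
      (Real.log Y1 - Real.log Y0)| ≤ ε := by
  obtain ⟨M, hM⟩ := recip_tendsto
  obtain ⟨A, hA⟩ := (Metric.tendsto_atTop.1 hM) (ε / 2) (by positivity)
  refine ⟨A, fun Y0 Y1 h0 h01 => ?_⟩
  have e0 := hA Y0 h0
  have e1 := hA Y1 (h0.trans h01)
  rw [Real.dist_eq] at e0 e1
  have hle : ⌊Real.exp Y0⌋₊ ≤ ⌊Real.exp Y1⌋₊ := Nat.floor_le_floor (Real.exp_le_exp.2 h01)
  have hsplit : ∑ p ∈ (Icc 1 ⌊Real.exp Y1⌋₊).filter Nat.Prime, (1 : ℝ) / p =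
      ∑ p ∈ (Icc 1 ⌊Real.exp Y0⌋₊).filter Nat.Prime, (1 : ℝ) / p +
      ∑ p ∈ (Ioc ⌊Real.exp Y0⌋₊ ⌊Real.exp Y1⌋₊).filter Nat.Prime, (1 : ℝ) / p := by
    rw [← Finset.sum_union]
    · congr 1
      ext p
      simp only [mem_filter, mem_union, mem_Icc, mem_Ioc]
      constructor
      · rintro ⟨⟨h1, h2⟩, h3⟩
        rcases Nat.lt_or_ge ⌊Real.exp Y0⌋₊ p with h4 | h4
        · exact Or.inr ⟨⟨h4, h2⟩, h3⟩
        · exact Or.inl ⟨⟨h1, h4⟩, h3⟩
      · rintro (⟨⟨h1, h2⟩, h3⟩ | ⟨⟨h1, h2⟩, h3⟩)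
        · exact ⟨⟨h1, h2.trans hle⟩, h3⟩
        · exact ⟨⟨by omega, h2⟩, h3⟩
    · rw [Finset.disjoint_left]
      intro p hp hq
      simp only [mem_filter, mem_Icc, mem_Ioc] at hp hq
      omega
  rw [hsplit] at e1
  rw [abs_lt] at e0 e1
  rw [abs_le]
  constructor <;> linarith [e0.1, e0.2, e1.1, e1.2]

/-- primes in short intervals -/
lemma bt : ∃ C : ℝ, 0 < C ∧ ∃ x₀ : ℕ, ∀ X L : ℕ, x₀ ≤ L →
    ((#((Ioc X (X + L)).filter Nat.Prime) : ℕ) : ℝ) ≤ C * L / Real.log L := by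
  obtain ⟨C, hC, x₀, h⟩ := Pool.Agent.H262R2.UK.bt
  refine ⟨C, hC, x₀, fun X L hL => ?_⟩
  refine le_trans ?_ (h L hL X)
  norm_cast
  refine Finset.card_le_card_of_injOn (fun n => n - X) ?_ ?_
  · intro n hn
    simp only [coe_filter, mem_Ioc, Set.mem_ofPred_eq, mem_Icc] at hn ⊢
    refine ⟨⟨by omega, by omega⟩, ?_⟩
    rw [Nat.sub_add_cancel hn.1.1.le]
    exact hn.2
  · intro a ha b hb hab
    simp only [coe_filter, mem_Ioc, Set.mem_ofPred_eq] at ha hb hab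
    omega

end Pool.Agent.Q267.DV
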