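import Mathlib
import Pool.Agent.Q43.LC.One
import Pool.Agent.Q267.DV.Num

set_option autoImplicit false

/-!
# One family: level sets, pieces, upper and lower bounds
-/

namespace Pool.Agent.Q267.DV

open MeasureTheory Filter Topology Finset
open Pool.Agent.Q43.LC (Lc LF)

section
variable {a0 a1 D : ℝ} {m : ℕ} {y y' : ℝ → ℝ}

lemma mv (hy : Lc a0 a1 D m y y') (hD : 0 ≤ D) (hm : 2 * D ≤ m) {s t : ℝ} (hs : a0 ≤ s) (hst : s ≤ t)
    (ht : t ≤ a1) : (m : ℝ) / 2 * (t - s) ≤ y t - y s ∧ y t - y s ≤ 2 * m * (t - s) := by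
  obtain ⟨h1, h2⟩ := hy.mvt hs hst ht
  have h3 : 0 ≤ t - s := by linarith
  constructor
  · exact le_trans (mul_le_mul_of_nonneg_right (by linarith) h3) h1
  · exact h2.trans (mul_le_mul_of_nonneg_right (by linarith) h3)

lemma lev (hy : Lc a0 a1 D m y y') (hD : 0 ≤ D) (hm : 2 * D ≤ m) (hm0 : 0 < m) {r : ℕ} (hr : 1 ≤ r)
    {s t : ℝ} (hs : a0 ≤ s) (hst : s ≤ t) (ht : t ≤ a1) (h1 : ⌊Real.exp (y s)⌋₊ = r)
    (h2 : ⌊Real.exp (y t)⌋₊ = r) : t - s ≤ 2 / m * (1 / r) := by
  have hm0' : (0 : ℝ) < m := by exact_mod_cast hm0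
  have hr0 : (0 : ℝ) < r := by exact_mod_cast hr
  have h3 := (mv hy hD hm hs hst ht).1
  have g1 : (r : ℝ) ≤ Real.exp (y s) := by rw [← h1]; exact Nat.floor_le (Real.exp_pos _).le
  have g2 : Real.exp (y t) < r + 1 := by rw [← h2]; exact Nat.lt_floor_add_one _
  have g3 : Real.exp (y t - y s) ≤ 1 + 1 / r := by
    rw [Real.exp_sub, div_le_iff₀ (Real.exp_pos _)]
    calc Real.exp (y t) ≤ r + 1 := g2.le
      _ = (1 + 1 / r) * r := by field_simp
      _ ≤ _ := by gcongr
  have g4 : y t - y s ≤ 1 / r := by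
    have := Real.add_one_le_exp (y t - y s)
    linarith
  have g6 : m / 2 * (t - s) ≤ 1 / r := by linarith
  calc t - s = 2 / m * (m / 2 * (t - s)) := by field_simp
    _ ≤ _ := by gcongr

lemma lev_vol (hy : Lc a0 a1 D m y y') (hD : 0 ≤ D) (hm : 2 * D ≤ m) (hm0 : 0 < m) {r : ℕ} (hr : 1 ≤ r)
    {u v : ℝ} (hu : a0 ≤ u) (hv : v ≤ a1) :
    volume.real ({t | ⌊Real.exp (y t)⌋₊ = r} ∩ Set.Icc u v) ≤ 2 / m * (1 / r) := by
  have hnn : (0 : ℝ) ≤ 2 / m * (1 / r) := by positivity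
  refine ENNReal.toReal_le_of_le_ofReal hnn ?_
  refine (Real.volume_le_diam _).trans (Metric.ediam_le ?_)
  rintro s ⟨hs, hsI⟩ t ⟨ht, htI⟩
  rw [edist_dist, Real.dist_eq]
  refine ENNReal.ofReal_le_ofReal ?_
  rcases le_total s t with h | h
  · rw [abs_sub_comm, abs_of_nonneg (by linarith)]
    exact lev hy hD hm hm0 hr (hu.trans hsI.1) h (htI.2.trans hv) hs ht
  · rw [abs_of_nonneg (by linarith)]
    exact lev hy hD hm hm0 hr (hu.trans htI.1) h (hsI.2.trans hv) ht hs

lemma floor_mono (hy : Lc a0 a1 D m y y') (hD : 0 ≤ D) (hm : 2 * D ≤ m) {s t : ℝ} (hs : a0 ≤ s)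
    (hst : s ≤ t) (ht : t ≤ a1) : ⌊Real.exp (y s)⌋₊ ≤ ⌊Real.exp (y t)⌋₊ := by
  refine Nat.floor_le_floor (Real.exp_le_exp.2 ?_)
  have h1 := (mv hy hD hm hs hst ht).1
  have h2 : (0 : ℝ) ≤ m / 2 * (t - s) := mul_nonneg (by positivity) (by linarith)
  linarith

/-- the set with prime integer part is covered by level sets -/
lemma sum_vol (hy : Lc a0 a1 D m y y') (hD : 0 ≤ D) (hm : 2 * D ≤ m) {u v : ℝ} (hu : a0 ≤ u)
    (hv : v ≤ a1) (F : Set ℝ) :
    volume.real ({t | (⌊Real.exp (y t)⌋₊).Prime} ∩ F ∩ Set.Icc u v) ≤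
      ∑ r ∈ (Icc ⌊Real.exp (y u)⌋₊ ⌊Real.exp (y v)⌋₊).filter Nat.Prime,
        volume.real ({t | ⌊Real.exp (y t)⌋₊ = r} ∩ F ∩ Set.Icc u v) := by
  refine le_trans (measureReal_mono ?_ ?_) (measureReal_biUnion_finset_le _ _)
  · rintro t ⟨⟨hp, hF⟩, ht⟩
    simp only [Set.mem_iUnion]
    refine ⟨⌊Real.exp (y t)⌋₊, ?_, ⟨rfl, hF⟩, ht⟩
    rw [mem_filter, mem_Icc]
    exact ⟨⟨floor_mono hy hD hm hu ht.1 (ht.2.trans hv), floor_mono hy hD hm (hu.trans ht.1) ht.2 hv⟩, hp⟩
  · refine ne_top_of_le_ne_top (b := volume (Set.Icc u v)) (by simp) (measure_mono ?_)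
    intro t ht
    simp only [Set.mem_iUnion] at ht
    obtain ⟨_, _, h⟩ := ht
    exact h.2

end

/-- a short piece -/
lemma piece : ∃ K : ℝ, 0 < K ∧ ∃ H0 : ℝ, 2 ≤ H0 ∧ ∀ {a0 a1 D : ℝ} {q : ℕ} {z z' : ℝ → ℝ},
    Lc a0 a1 D q z z' → 0 ≤ D → 2 * D ≤ q → 0 < q → ∀ u v : ℝ, a0 ≤ u → u ≤ v → v ≤ a1 → 1 ≤ z u →
    z v - z u ≤ 1 → ∀ H : ℝ, H0 ≤ H → H ≤ Real.exp (z v) - Real.exp (z u) →
    volume.real ({t | (⌊Real.exp (z t)⌋₊).Prime} ∩ Set.Icc u v) ≤ K * (v - u) / Real.log H := by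
  obtain ⟨C, hC, x₀, hbt⟩ := bt
  refine ⟨32 * C, by positivity, max 2 x₀, le_max_left _ _, ?_⟩
  intro a0 a1 D q z z' hz hD hq hq0 u v hu huv hv hz1 hzv H hH0 hH
  have hq0' : (0 : ℝ) < q := by exact_mod_cast hq0
  have hH2 : 2 ≤ H := (le_max_left _ _).trans hH0
  have hHx : (x₀ : ℝ) ≤ H := (le_max_right _ _).trans hH0
  set H' := Real.exp (z v) - Real.exp (z u) with hH'
  set f0 := ⌊Real.exp (z u)⌋₊ with hf0
  set f1 := ⌊Real.exp (z v)⌋₊ with hf1
  have hE0 : 2 ≤ Real.exp (z u) := by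
    have := Real.add_one_le_exp (z u)
    linarith
  have a1' : (f0 : ℝ) ≤ Real.exp (z u) := Nat.floor_le (Real.exp_pos _).le
  have a2' : Real.exp (z u) < f0 + 1 := Nat.lt_floor_add_one _
  have b1' : (f1 : ℝ) ≤ Real.exp (z v) := Nat.floor_le (Real.exp_pos _).le
  have b2' : Real.exp (z v) < f1 + 1 := Nat.lt_floor_add_one _
  have hf0r : Real.exp (z u) / 2 ≤ f0 := by linarith
  have hf01 : 1 ≤ f0 := by
    have : (1 : ℝ) ≤ f0 := by linarith
    exact_mod_cast this
  have hle : f0 ≤ f1 := floor_mono hz hD hq hu huv hv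
  set L := f1 - f0 + 1 with hL
  have hLr : (L : ℝ) = f1 - f0 + 1 := by
    rw [hL]; push_cast [Nat.cast_sub hle]; ring
  have hLlo : H' ≤ L := by rw [hLr, hH']; linarith
  have hLhi : (L : ℝ) ≤ 2 * H' := by rw [hLr]; rw [hH'] at *; linarith
  have hlogH : 0 < Real.log H := Real.log_pos (by linarith)
  have hlogL : Real.log H ≤ Real.log L := Real.log_le_log (by linarith) (hH.trans hLlo)
  have hLx : x₀ ≤ L := by
    have : (x₀ : ℝ) ≤ L := hHx.trans (hH.trans hLlo)
    exact_mod_cast this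
  have hcount := hbt (f0 - 1) L hLx
  have hset : (Icc f0 f1).filter Nat.Prime = (Ioc (f0 - 1) (f0 - 1 + L)).filter Nat.Prime := by
    ext r
    simp only [mem_filter, mem_Icc, mem_Ioc]
    constructor
    · rintro ⟨⟨h1, h2⟩, h3⟩
      exact ⟨⟨by omega, by omega⟩, h3⟩
    · rintro ⟨⟨h1, h2⟩, h3⟩
      exact ⟨⟨by omega, by omega⟩, h3⟩
  have hH'0 : 0 ≤ H' := by linarith
  have hw0 : 0 ≤ z v - z u := by
    have h1 := (mv hz hD hq hu huv hv).1
    have h2 : (0 : ℝ) ≤ q / 2 * (v - u) := mul_nonneg (by positivity) (by linarith)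
    linarith
  have hH'le : H' ≤ Real.exp (z u) * (4 * q * (v - u)) := by
    have h1 := Real.abs_exp_sub_one_le (x := z v - z u) (by rw [abs_of_nonneg hw0]; exact hzv)
    rw [abs_of_nonneg hw0] at h1
    have h2 := (abs_le.1 h1).2
    have h3 := (mv hz hD hq hu huv hv).2
    have e : H' = Real.exp (z u) * (Real.exp (z v - z u) - 1) := by
      rw [hH', mul_sub, ← Real.exp_add]; ring_nf
    rw [e]
    refine mul_le_mul_of_nonneg_left ?_ (Real.exp_pos _).le
    linarith
  have h1 := sum_vol hz hD hq hu hv Set.univ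
  simp only [Set.inter_univ] at h1
  refine h1.trans ?_
  calc ∑ r ∈ (Icc f0 f1).filter Nat.Prime, volume.real ({t | ⌊Real.exp (z t)⌋₊ = r} ∩ Set.Icc u v) ≤
        ∑ _r ∈ (Icc f0 f1).filter Nat.Prime, 4 / (q * Real.exp (z u)) := by
        refine Finset.sum_le_sum fun r hr => ?_
        rw [mem_filter, mem_Icc] at hr
        have hr1 : (f0 : ℝ) ≤ r := by exact_mod_cast hr.1.1
        refine (lev_vol hz hD hq hq0 (hf01.trans hr.1.1) hu hv).trans ?_
        have hrpos : 0 < Real.exp (z u) / 2 := by positivity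
        calc 2 / (q : ℝ) * (1 / r) ≤ 2 / q * (1 / (Real.exp (z u) / 2)) := by
              gcongr
              linarith
          _ = 4 / (q * Real.exp (z u)) := by field_simp; ring
    _ = (#((Ioc (f0 - 1) (f0 - 1 + L)).filter Nat.Prime) : ℝ) * (4 / (q * Real.exp (z u))) := by
        rw [hset, Finset.sum_const, nsmul_eq_mul]
    _ ≤ C * L / Real.log L * (4 / (q * Real.exp (z u))) := by gcongr
    _ ≤ C * (2 * H') / Real.log H * (4 / (q * Real.exp (z u))) := by
        have h0 : 0 ≤ C * (2 * H') := by positivity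
        gcongr
    _ ≤ C * (2 * (Real.exp (z u) * (4 * q * (v - u)))) / Real.log H * (4 / (q * Real.exp (z u))) := by
        gcongr
    _ = 32 * C * (v - u) / Real.log H := by
        field_simp
        ring

/-- a long piece -/
lemma cover : ∃ K : ℝ, 0 < K ∧ ∃ H0 : ℝ, 2 ≤ H0 ∧ ∀ {a0 a1 D : ℝ} {q : ℕ} {z z' : ℝ → ℝ},
    Lc a0 a1 D q z z' → 0 ≤ D → 2 * D ≤ q → 0 < q → ∀ u l : ℝ, a0 ≤ u → 0 < l → u + l ≤ a1 → 1 ≤ z u →
    ∀ H : ℝ, H0 ≤ H → H ≤ Real.exp (z u) * min (q * l / 2) (1 / 8) →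
    volume.real ({t | (⌊Real.exp (z t)⌋₊).Prime} ∩ Set.Icc u (u + l)) ≤ K * l / Real.log H := by
  obtain ⟨K, hK, H0, hH02, hp⟩ := piece
  refine ⟨K, hK, H0, hH02, ?_⟩
  intro a0 a1 D q z z' hz hD hq hq0 u l hu hl hul hz1 H hH0 hH
  have hq0' : (0 : ℝ) < q := by exact_mod_cast hq0
  set k := ⌈2 * q * l⌉₊ with hk
  have hql : 0 < 2 * q * l := by positivity
  have hk1 : 1 ≤ k := Nat.one_le_ceil_iff.2 hql
  have hkr : (1 : ℝ) ≤ k := by exact_mod_cast hk1
  have hk0 : (0 : ℝ) < k := by linarith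
  have hkge : 2 * q * l ≤ k := Nat.le_ceil _
  have hklt : (k : ℝ) < 2 * q * l + 1 := Nat.ceil_lt_add_one hql.le
  set w := l / k with hw
  have hw0 : 0 < w := by positivity
  have hkw : k * w = l := by rw [hw]; field_simp
  have hqw : 2 * q * w ≤ 1 := by
    rw [hw, ← mul_div_assoc, div_le_one hk0]
    exact hkge
  have hmin : min (q * l / 2) (1 / 8) ≤ q / 2 * w := by
    rcases Nat.lt_or_ge 1 k with h | h
    · refine (min_le_right _ _).trans ?_
      have h2 : (2 : ℝ) ≤ k := by exact_mod_cast h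
      rw [hw, div_mul_div_comm, le_div_iff₀ (by positivity)]
      nlinarith
    · have e : k = 1 := le_antisymm h hk1
      refine (min_le_left _ _).trans ?_
      rw [hw, e]
      simp only [Nat.cast_one, div_one]
      linarith
  have hlogH : 0 < Real.log H := Real.log_pos (by linarith)
  have key : ∀ i : ℕ, i ≤ k → volume.real ({t | (⌊Real.exp (z t)⌋₊).Prime} ∩ Set.Icc u (u + i * w)) ≤
      i * (K * w / Real.log H) := by
    intro i
    induction i with
    | zero =>
      intro _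
      simp only [Nat.cast_zero, zero_mul, add_zero, Set.Icc_self]
      refine le_of_eq ?_
      have h0 : volume ({t | (⌊Real.exp (z t)⌋₊).Prime} ∩ {u}) = 0 :=
        measure_mono_null Set.inter_subset_right (by simp)
      simp [Measure.real, h0]
    | succ i ih =>
      intro hi
      have h1 := ih (by omega)
      have hir : ((i : ℝ) + 1) ≤ k := by exact_mod_cast hi
      have hi0 : (0 : ℝ) ≤ i := Nat.cast_nonneg i
      have hiw : 0 ≤ i * w := by positivity
      have hend : (i + 1) * w ≤ l := by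
        calc ((i : ℝ) + 1) * w ≤ k * w := by gcongr
          _ = l := hkw
      set ui := u + i * w with hui
      have huv : ui ≤ ui + w := by linarith
      have hzmono : z u ≤ z ui := by
        have h2 := (mv hz hD hq hu (show u ≤ ui by linarith) (by rw [hui]; nlinarith)).1
        have h3 : (0 : ℝ) ≤ q / 2 * (ui - u) := mul_nonneg (by positivity) (by linarith)
        linarith
      have hve : ui + w ≤ a1 := by rw [hui]; nlinarith
      have hmvi := mv hz hD hq (show a0 ≤ ui by linarith) huv hve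
      have h2 := hp hz hD hq hq0 ui (ui + w) (by linarith) huv hve (by linarith) (by
        have := hmvi.2
        have e : ui + w - ui = w := by ring
        rw [e] at this
        linarith) H hH0 (by
        refine hH.trans ?_
        have e : ui + w - ui = w := by ring
        have h3 := hmvi.1
        rw [e] at h3
        have h4 : Real.exp (z ui) * (z (ui + w) - z ui) ≤ Real.exp (z (ui + w)) - Real.exp (z ui) := by
          have h5 := Real.add_one_le_exp (z (ui + w) - z ui)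
          have h6 : Real.exp (z (ui + w)) = Real.exp (z ui) * Real.exp (z (ui + w) - z ui) := by
            rw [← Real.exp_add]; ring_nf
          rw [h6]
          nlinarith [Real.exp_pos (z ui)]
        refine le_trans ?_ h4
        calc Real.exp (z u) * min (q * l / 2) (1 / 8) ≤ Real.exp (z u) * (q / 2 * w) := by gcongr
          _ ≤ Real.exp (z ui) * (q / 2 * w) := by gcongr
          _ ≤ _ := by gcongr)
      have e : ui + w - ui = w := by ring
      rw [e] at h2
      have hsub : {t | (⌊Real.exp (z t)⌋₊).Prime} ∩ Set.Icc u (u + ((i + 1 : ℕ) : ℝ) * w) ⊆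
          ({t | (⌊Real.exp (z t)⌋₊).Prime} ∩ Set.Icc u ui) ∪
          ({t | (⌊Real.exp (z t)⌋₊).Prime} ∩ Set.Icc ui (ui + w)) := by
        rintro t ⟨ht, ht1, ht2⟩
        rcases le_total t ui with h | h
        · exact Or.inl ⟨ht, ht1, h⟩
        · refine Or.inr ⟨ht, h, ht2.trans (le_of_eq ?_)⟩
          rw [hui]; push_cast; ring
      calc _ ≤ volume.real (({t | (⌊Real.exp (z t)⌋₊).Prime} ∩ Set.Icc u ui) ∪
            ({t | (⌊Real.exp (z t)⌋₊).Prime} ∩ Set.Icc ui (ui + w))) := by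
            refine measureReal_mono hsub ?_
            refine ne_top_of_le_ne_top (b := volume (Set.Icc u ui ∪ Set.Icc ui (ui + w))) ?_
              (measure_mono (Set.union_subset_union Set.inter_subset_right Set.inter_subset_right))
            exact ne_top_of_le_ne_top (b := volume (Set.Icc u ui) + volume (Set.Icc ui (ui + w)))
              (by simp) (measure_union_le _ _)
        _ ≤ _ := measureReal_union_le _ _
        _ ≤ i * (K * w / Real.log H) + K * w / Real.log H := by linarith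
        _ = _ := by push_cast; ring
  have h1 := key k le_rfl
  rw [hkw] at h1
  refine h1.trans (le_of_eq ?_)
  rw [← mul_div_assoc]
  congr 1
  rw [← hkw]
  ring

end Pool.Agent.Q267.DV
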