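import Mathlib
import Pool.Agent.Q267.DV.Cell

set_option autoImplicit false

/-!
# Single bounds and pair bounds in a window
-/

namespace Pool.Agent.Q267.DV

open MeasureTheory Filter Topology Finset
open Pool.Agent.Q43.LC (Lc LF)

lemma floor_small {a : ℝ} (ha : 0 < a) {δ : ℝ} (hδ : 0 < δ) : ∀ᶠ m : ℕ in atTop, ∀ Y : ℝ, a * m ≤ Y →
    1 ≤ Y ∧ 2 ≤ ⌊Real.exp Y⌋₊ ∧ 1 / ((⌊Real.exp Y⌋₊ : ℕ) : ℝ) ≤ δ := by
  have hlin : Tendsto (fun n : ℕ => a * (n : ℝ)) atTop atTop :=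
    tendsto_natCast_atTop_atTop.const_mul_atTop ha
  filter_upwards [hlin.eventually_ge_atTop (2 + 1 / δ + 1)] with m hm Y hY
  have hd : 0 < 1 / δ := by positivity
  have h1 : 1 ≤ Y := by linarith
  have h2 := floor_exp_ge h1
  have h3 := Real.add_one_le_exp (Y - 1)
  have h4 : Y ≤ (⌊Real.exp Y⌋₊ : ℝ) := by linarith
  refine ⟨h1, ?_, ?_⟩
  · have : (2 : ℝ) ≤ (⌊Real.exp Y⌋₊ : ℝ) := by linarith
    exact_mod_cast this
  · rw [div_le_iff₀ (by linarith)]
    have h5 : 1 / δ ≤ (⌊Real.exp Y⌋₊ : ℝ) := by linarith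
    rw [div_le_iff₀ hδ] at h5
    linarith

/-- the reciprocals of the primes in the window -/
lemma recw {a0 a1 D : ℝ} (ha0 : 0 < a0) (hD : 0 ≤ D) {s t : ℝ} (hs : a0 < s) (hst : s < t)
    (ht : t < a1) : ∀ᶠ m : ℕ in atTop, ∀ y y' : ℝ → ℝ, Lc a0 a1 D m y y' →
    ∑ r ∈ (Icc ⌊Real.exp (y s)⌋₊ ⌊Real.exp (y t)⌋₊).filter Nat.Prime, 1 / (r : ℝ) ≤ 3 * (t - s) / a0 ∧
    (t - s) / (2 * a1) ≤
      ∑ r ∈ (Ioc ⌊Real.exp (y s)⌋₊ (⌊Real.exp (y t)⌋₊ - 1)).filter Nat.Prime, 1 / (r : ℝ) := by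
  have hts : 0 < t - s := by linarith
  have ha1 : 0 < a1 := by linarith
  obtain ⟨A, hA⟩ := recip (ε := (t - s) / (16 * a1)) (by positivity)
  have hlin : ∀ c : ℝ, 0 < c → Tendsto (fun n : ℕ => c * (n : ℝ)) atTop atTop := fun c hc =>
    tendsto_natCast_atTop_atTop.const_mul_atTop hc
  filter_upwards [(hlin (a0 / 2) (by positivity)).eventually_ge_atTop (A + D + 1),
    (hlin a0 ha0).eventually_ge_atTop (4 * D), (hlin (t - s) hts).eventually_ge_atTop (8 * D),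
    (hlin a1 ha1).eventually_ge_atTop (8 * D), eventually_gt_atTop 0,
    floor_small (show (0 : ℝ) < a0 / 2 by positivity) (show (0 : ℝ) < (t - s) / (16 * a1) by positivity)]
    with m h1 h2 h3 h4 h5 h6 y y' hy
  have hm0 : (0 : ℝ) < m := by exact_mod_cast h5
  have ns := abs_le.1 (hy.near s ⟨hs.le, by linarith⟩)
  have nt := abs_le.1 (hy.near t ⟨by linarith, ht.le⟩)
  have hma0 : a0 * m ≤ m * s := by
    rw [mul_comm a0]
    exact mul_le_mul_of_nonneg_left hs.le hm0.le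
  have hma1 : m * t ≤ a1 * m := by
    rw [mul_comm a1]
    exact mul_le_mul_of_nonneg_left ht.le hm0.le
  obtain ⟨P, hP⟩ : ∃ P : ℝ, P = m * (t - s) := ⟨_, rfl⟩
  have hP0 : 0 < P := by rw [hP]; positivity
  have hP1 : m * t - m * s = P := by rw [hP]; ring
  have hP2 : (t - s) * m = P := by rw [hP]; ring
  rw [hP2] at h3
  obtain ⟨Q, hQ⟩ : ∃ Q : ℝ, Q = a0 * m := ⟨_, rfl⟩
  have hQ0 : 0 < Q := by rw [hQ]; positivity
  have hQ1 : a0 / 2 * m = Q / 2 := by rw [hQ]; ring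
  rw [hQ1] at h1
  rw [← hQ] at h2 hma0
  obtain ⟨R, hR⟩ : ∃ R : ℝ, R = a1 * m := ⟨_, rfl⟩
  have hR0 : 0 < R := by rw [hR]; positivity
  rw [← hR] at h4 hma1
  have hys : Q / 2 ≤ y s := by linarith [ns.1]
  have hyst : y s ≤ y t := by linarith [ns.2, nt.1]
  obtain ⟨g1, g2, g3⟩ := h6 (y s) (by rw [hQ1]; exact hys)
  obtain ⟨g1', g2', g3'⟩ := h6 (y t) (by rw [hQ1]; exact hys.trans hyst)
  have hAb := hA (y s) (y t) (by linarith) hyst
  have hab := abs_le.1 hAb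
  have hys0 : 0 < y s := by linarith
  have hyt0 : 0 < y t := by linarith
  have hfle : ⌊Real.exp (y s)⌋₊ ≤ ⌊Real.exp (y t)⌋₊ := Nat.floor_le_floor (Real.exp_le_exp.2 hyst)
  have ha01 : a0 < a1 := by linarith
  have hsmall : (t - s) / (16 * a1) ≤ (t - s) / (16 * a0) := by gcongr
  -- logarithms
  have hup : Real.log (y t) - Real.log (y s) ≤ 2 * (t - s) / a0 := by
    rw [← Real.log_div hyt0.ne' hys0.ne']
    have h7 := Real.log_le_sub_one_of_pos (show 0 < y t / y s by positivity)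
    refine h7.trans ?_
    have e : y t / y s - 1 = (y t - y s) / y s := by field_simp
    rw [e, div_le_div_iff₀ hys0 ha0]
    have h8 : y t - y s ≤ (5 / 4) * P := by linarith [ns.1, nt.2]
    have h9 : (3 / 4) * Q ≤ y s := by linarith [ns.1]
    have h11 : 0 < P * a0 := mul_pos hP0 ha0
    calc (y t - y s) * a0 ≤ (5 / 4) * P * a0 := by gcongr
      _ ≤ (3 / 2) * (P * a0) := by linarith
      _ = 2 * (t - s) * ((3 / 4) * Q) := by rw [hP, hQ]; ring
      _ ≤ _ := by gcongr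
  have hlo : 5 / 8 * ((t - s) / a1) ≤ Real.log (y t) - Real.log (y s) := by
    rw [← Real.log_div hyt0.ne' hys0.ne']
    have h7 := Real.one_sub_inv_le_log_of_pos (show 0 < y t / y s by positivity)
    refine le_trans ?_ h7
    have e : 1 - (y t / y s)⁻¹ = (y t - y s) / y t := by
      rw [inv_div]; field_simp
    rw [e, ← mul_div_assoc, div_le_div_iff₀ ha1 hyt0]
    have h8 : (3 / 4) * P ≤ y t - y s := by linarith [ns.2, nt.1]
    have h9 : y t ≤ (9 / 8) * R := by linarith [nt.2]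
    have h11 : 0 < P * a1 := mul_pos hP0 ha1
    calc 5 / 8 * (t - s) * y t ≤ 5 / 8 * (t - s) * ((9 / 8) * R) := by gcongr
      _ = (45 / 64) * (P * a1) := by rw [hP, hR]; ring
      _ ≤ (3 / 4) * P * a1 := by linarith
      _ ≤ _ := by gcongr
  have e3 : 3 * (t - s) / a0 = 2 * (t - s) / a0 + 16 * ((t - s) / (16 * a0)) := by
    field_simp; ring
  have e4 : (t - s) / (2 * a1) = 5 / 8 * ((t - s) / a1) - 2 * ((t - s) / (16 * a1)) := by
    field_simp; ring
  have hpos16 : 0 < (t - s) / (16 * a0) := by positivity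
  constructor
  · rw [← Finset.Ioc_insert_left hfle, Finset.filter_insert]
    have hnn : 0 ≤ 1 / ((⌊Real.exp (y s)⌋₊ : ℕ) : ℝ) := by positivity
    split_ifs with hpr
    · rw [Finset.sum_insert (by simp)]
      linarith [hab.2]
    · linarith [hab.2]
  · have hsub : (Ioc ⌊Real.exp (y s)⌋₊ ⌊Real.exp (y t)⌋₊).filter Nat.Prime ⊆
        (insert ⌊Real.exp (y t)⌋₊ (Ioc ⌊Real.exp (y s)⌋₊ (⌊Real.exp (y t)⌋₊ - 1))).filter Nat.Prime := by
      intro r hr
      simp only [mem_filter, mem_Ioc, mem_insert] at hr ⊢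
      refine ⟨?_, hr.2⟩
      rcases eq_or_ne r ⌊Real.exp (y t)⌋₊ with h | h
      · exact Or.inl h
      · exact Or.inr ⟨hr.1.1, by omega⟩
    have h7 := Finset.sum_le_sum_of_subset_of_nonneg (f := fun r : ℕ => 1 / (r : ℝ)) hsub
      (fun _ _ _ => by positivity)
    rw [Finset.filter_insert] at h7
    have hnn : 0 ≤ 1 / ((⌊Real.exp (y t)⌋₊ : ℕ) : ℝ) := by positivity
    split_ifs at h7 with hpr
    · rw [Finset.sum_insert (by
        simp only [mem_filter, mem_Ioc, not_and]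
        intro h; omega)] at h7
      linarith [hab.1]
    · linarith [hab.1]

/-- lower bound for a level set -/
lemma lev_low {a0 a1 D : ℝ} {m : ℕ} {y y' : ℝ → ℝ} (hy : Lc a0 a1 D m y y') (hD : 0 ≤ D)
    (hm : 2 * D ≤ m) (hm0 : 0 < m) {s t : ℝ} (hs : a0 ≤ s) (hst : s ≤ t) (ht : t ≤ a1) {r : ℕ}
    (hr : 1 ≤ r) (h1 : Real.exp (y s) < r) (h2 : (r : ℝ) + 1 ≤ Real.exp (y t)) :
    1 / (4 * m) * (1 / r) ≤ volume.real ({x | ⌊Real.exp (y x)⌋₊ = r} ∩ Set.Ioc s t) := by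
  have hm0' : (0 : ℝ) < m := by exact_mod_cast hm0
  have hr0 : (0 : ℝ) < r := by exact_mod_cast hr
  have hcont : ContinuousOn y (Set.Icc s t) := hy.cont.mono (Set.Icc_subset_Icc hs ht)
  have hl1 : y s ≤ Real.log r := by
    rw [Real.le_log_iff_exp_le hr0]; exact h1.le
  have hl2 : Real.log (r + 1) ≤ y t := by
    rw [Real.log_le_iff_le_exp (by linarith)]; exact h2
  have hl3 : Real.log r ≤ Real.log (r + 1) := Real.log_le_log hr0 (by linarith)
  obtain ⟨t0, ht0, e0⟩ := intermediate_value_Icc hst hcont (show Real.log r ∈ Set.Icc (y s) (y t) from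
    ⟨hl1, by linarith⟩)
  obtain ⟨t1, ht1, e1⟩ := intermediate_value_Icc hst hcont
    (show Real.log (r + 1) ∈ Set.Icc (y s) (y t) from ⟨by linarith, hl2⟩)
  have hgap : 1 / (2 * (r : ℝ)) ≤ Real.log (r + 1) - Real.log r := by
    rw [← Real.log_div (by linarith) hr0.ne']
    have h7 := Real.one_sub_inv_le_log_of_pos (show 0 < ((r : ℝ) + 1) / r by positivity)
    refine le_trans ?_ h7
    have e : 1 - (((r : ℝ) + 1) / r)⁻¹ = 1 / (r + 1) := by
      rw [inv_div]; field_simp; ring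
    rw [e]
    apply one_div_le_one_div_of_le (by linarith)
    have : (1 : ℝ) ≤ r := by exact_mod_cast hr
    linarith
  have hgp : 0 < 1 / (2 * (r : ℝ)) := by positivity
  have h01 : t0 < t1 := by
    by_contra hcon
    push Not at hcon
    have h3 := (mv hy hD hm (hs.trans ht1.1) hcon (ht0.2.trans ht)).1
    have h4 : (0 : ℝ) ≤ m / 2 * (t0 - t1) := mul_nonneg (by positivity) (by linarith)
    rw [e0, e1] at h3
    linarith
  have h3 := (mv hy hD hm (hs.trans ht0.1) h01.le (ht1.2.trans ht)).2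
  rw [e0, e1] at h3
  have hsub : Set.Ioo t0 t1 ⊆ {x | ⌊Real.exp (y x)⌋₊ = r} ∩ Set.Ioc s t := by
    rintro x ⟨hx0, hx1⟩
    have h4 := (mv hy hD hm (hs.trans ht0.1) hx0.le ((hx1.le.trans ht1.2).trans ht)).1
    have h5 := (mv hy hD hm ((hs.trans ht0.1).trans hx0.le) hx1.le (ht1.2.trans ht)).1
    have h6 : (0 : ℝ) < m / 2 * (x - t0) := mul_pos (by positivity) (by linarith)
    have h7 : (0 : ℝ) < m / 2 * (t1 - x) := mul_pos (by positivity) (by linarith)
    refine ⟨?_, ?_, ?_⟩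
    · show ⌊Real.exp (y x)⌋₊ = r
      rw [Nat.floor_eq_iff (Real.exp_pos _).le]
      constructor
      · rw [← Real.log_le_iff_le_exp hr0]; linarith
      · rw [← Real.lt_log_iff_exp_lt (by linarith)]; linarith
    · exact lt_of_le_of_lt ht0.1 hx0
    · exact hx1.le.trans ht1.2
  have h4 : t1 - t0 ≤ volume.real ({x | ⌊Real.exp (y x)⌋₊ = r} ∩ Set.Ioc s t) := by
    rw [← Real.volume_real_Ioo_of_le h01.le]
    exact measureReal_mono hsub
      (ne_top_of_le_ne_top (by simp) (measure_mono (Set.inter_subset_right (t := Set.Ioc s t))))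
  refine le_trans ?_ h4
  have h5 : 1 / (2 * (r : ℝ)) ≤ 2 * m * (t1 - t0) := hgap.trans h3
  have e : 1 / (4 * (m : ℝ)) * (1 / r) = 1 / (2 * m) * (1 / (2 * r)) := by field_simp; ring
  rw [e]
  calc 1 / (2 * (m : ℝ)) * (1 / (2 * r)) ≤ 1 / (2 * m) * (2 * m * (t1 - t0)) := by gcongr
    _ = t1 - t0 := by field_simp

/-- **Lower bound in a window.** -/
lemma lower {a0 a1 D : ℝ} (ha0 : 0 < a0) (hD : 0 ≤ D) {s t : ℝ} (hs : a0 < s) (hst : s < t)
    (ht : t < a1) : ∀ᶠ m : ℕ in atTop, ∀ y y' : ℝ → ℝ, Measurable y → Lc a0 a1 D m y y' →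
    1 / (8 * a1) * (t - s) / m ≤ volume.real ({x | (⌊Real.exp (y x)⌋₊).Prime} ∩ Set.Ioc s t) := by
  have ha1 : 0 < a1 := by linarith
  filter_upwards [recw ha0 hD hs hst ht, (tendsto_natCast_atTop_atTop (R := ℝ)).eventually_ge_atTop
    (2 * D), eventually_gt_atTop 0] with m h1 h2 h3 y y' hym hy
  have hm0 : (0 : ℝ) < m := by exact_mod_cast h3
  obtain ⟨_, h4⟩ := h1 y y' hy
  set F := (Ioc ⌊Real.exp (y s)⌋₊ (⌊Real.exp (y t)⌋₊ - 1)).filter Nat.Prime with hF
  have hlm : ∀ r : ℕ, MeasurableSet ({x | ⌊Real.exp (y x)⌋₊ = r} ∩ Set.Ioc s t) := fun r =>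
    ((Nat.measurable_floor.comp (Real.measurable_exp.comp hym)) (measurableSet_singleton r)).inter
      measurableSet_Ioc
  have hfin : ∀ A : Set ℝ, A ⊆ Set.Ioc s t → volume A ≠ ⊤ := fun A hA =>
    ne_top_of_le_ne_top (by simp) (measure_mono hA)
  calc 1 / (8 * a1) * (t - s) / m = 1 / (4 * m) * ((t - s) / (2 * a1)) := by field_simp; ring
    _ ≤ 1 / (4 * m) * ∑ r ∈ F, 1 / (r : ℝ) := by gcongr
    _ = ∑ r ∈ F, 1 / (4 * m) * (1 / (r : ℝ)) := by rw [Finset.mul_sum]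
    _ ≤ ∑ r ∈ F, volume.real ({x | ⌊Real.exp (y x)⌋₊ = r} ∩ Set.Ioc s t) := by
        refine Finset.sum_le_sum fun r hr => ?_
        rw [hF, mem_filter, mem_Ioc] at hr
        refine lev_low hy hD h2 h3 hs.le hst.le ht.le hr.2.one_le ?_ ?_
        · rw [← Nat.floor_lt (Real.exp_pos _).le]
          exact hr.1.1
        · have h5 : r + 1 ≤ ⌊Real.exp (y t)⌋₊ := by omega
          have h6 : ((r + 1 : ℕ) : ℝ) ≤ (⌊Real.exp (y t)⌋₊ : ℝ) := by exact_mod_cast h5
          push_cast at h6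
          exact h6.trans (Nat.floor_le (Real.exp_pos _).le)
    _ = volume.real (⋃ r ∈ F, ({x | ⌊Real.exp (y x)⌋₊ = r} ∩ Set.Ioc s t)) := by
        rw [measureReal_biUnion_finset (h := fun r _ => hfin _ Set.inter_subset_right)]
        · intro r _ r' _ hne
          simp only [Function.onFun]
          rw [Set.disjoint_left]
          rintro x ⟨h5, _⟩ ⟨h6, _⟩
          exact hne (h5.symm.trans h6)
        · exact fun r _ => hlm r
    _ ≤ _ := by
        refine measureReal_mono ?_ (hfin _ Set.inter_subset_right)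
        intro x hx
        simp only [Set.mem_iUnion] at hx
        obtain ⟨r, hr, h5, h6⟩ := hx
        rw [hF, mem_filter] at hr
        refine ⟨?_, h6⟩
        show (⌊Real.exp (y x)⌋₊).Prime
        rw [h5]
        exact hr.2

/-- **Upper bound in a window.** -/
lemma upper {a0 a1 D : ℝ} (ha0 : 0 < a0) (hD : 0 ≤ D) {s t : ℝ} (hs : a0 < s) (hst : s < t)
    (ht : t < a1) : ∀ᶠ m : ℕ in atTop, ∀ y y' : ℝ → ℝ, Lc a0 a1 D m y y' →
    volume.real ({x | (⌊Real.exp (y x)⌋₊).Prime} ∩ Set.Ioc s t) ≤ 6 / a0 * (t - s) / m := by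
  filter_upwards [recw ha0 hD hs hst ht, (tendsto_natCast_atTop_atTop (R := ℝ)).eventually_ge_atTop
    (2 * D), eventually_gt_atTop 0] with m h1 h2 h3 y y' hy
  have hm0 : (0 : ℝ) < m := by exact_mod_cast h3
  obtain ⟨h4, _⟩ := h1 y y' hy
  have h5 := sum_vol hy hD h2 hs.le ht.le Set.univ
  simp only [Set.inter_univ] at h5
  calc volume.real ({x | (⌊Real.exp (y x)⌋₊).Prime} ∩ Set.Ioc s t) ≤
        volume.real ({x | (⌊Real.exp (y x)⌋₊).Prime} ∩ Set.Icc s t) := by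
        refine measureReal_mono (Set.inter_subset_inter_right _ Set.Ioc_subset_Icc_self) ?_
        exact ne_top_of_le_ne_top (by simp) (measure_mono (Set.inter_subset_right (t := Set.Icc s t)))
    _ ≤ _ := h5
    _ ≤ ∑ r ∈ (Icc ⌊Real.exp (y s)⌋₊ ⌊Real.exp (y t)⌋₊).filter Nat.Prime, 2 / m * (1 / (r : ℝ)) := by
        refine Finset.sum_le_sum fun r hr => ?_
        rw [mem_filter] at hr
        exact lev_vol hy hD h2 h3 hr.2.one_le hs.le ht.le
    _ = 2 / m * ∑ r ∈ (Icc ⌊Real.exp (y s)⌋₊ ⌊Real.exp (y t)⌋₊).filter Nat.Prime, 1 / (r : ℝ) := by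
        rw [Finset.mul_sum]
    _ ≤ 2 / m * (3 * (t - s) / a0) := by gcongr
    _ = _ := by field_simp; ring

end Pool.Agent.Q267.DV
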