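import Mathlib
import Pool.Agent.Q267.DV.Pair

set_option autoImplicit false

/-!
# Pair bounds in a window
-/

namespace Pool.Agent.Q267.DV

open MeasureTheory Filter Topology Finset
open Pool.Agent.Q43.LC (Lc LF)

/-- one level set of the first function -/
lemma pair_one {K H0 : ℝ} (hK : 0 < K) (hH0 : 2 ≤ H0)
    (hcov : ∀ {a0 a1 D : ℝ} {q : ℕ} {z z' : ℝ → ℝ},
    Lc a0 a1 D q z z' → 0 ≤ D → 2 * D ≤ q → 0 < q → ∀ u l : ℝ, a0 ≤ u → 0 < l → u + l ≤ a1 → 1 ≤ z u →
    ∀ H : ℝ, H0 ≤ H → H ≤ Real.exp (z u) * min (q * l / 2) (1 / 8) →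
    volume.real ({t | (⌊Real.exp (z t)⌋₊).Prime} ∩ Set.Icc u (u + l)) ≤ K * l / Real.log H)
    {a0 a1 D : ℝ} (ha0 : 0 < a0) (hD : 0 ≤ D) {s t : ℝ} {p q : ℕ} {y y' z z' : ℝ → ℝ}
    (hy : Lc a0 a1 D p y y') (hz : Lc a0 a1 D q z z') (hp0 : 0 < p) (hpq : p < q)
    (hp1 : 2 * D ≤ p) (hp2 : D + 3 ≤ a0 * p) (hp3 : 2 / p ≤ s - a0) (hp4 : 2 / p ≤ a1 - t)
    (hg1 : 4 * D + 2 ≤ ((q : ℝ) - p) * a0) (hg2 : 2 * Real.log H0 ≤ ((q : ℝ) - p) * a0)
    {N : ℕ} (hN : 2 ≤ N) :
    volume.real ({x | ⌊Real.exp (y x)⌋₊ = N} ∩ {x | (⌊Real.exp (z x)⌋₊).Prime} ∩ Set.Icc s t) ≤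
      8 * K / (a0 * p * (q - p)) * (1 / N) := by
  have hpr : (0 : ℝ) < p := by exact_mod_cast hp0
  have hpqr : (p : ℝ) < q := by exact_mod_cast hpq
  have hqr : (0 : ℝ) < q := hpr.trans hpqr
  have hqp : (0 : ℝ) < (q : ℝ) - p := by linarith
  have hNr : (2 : ℝ) ≤ N := by exact_mod_cast hN
  have hN0 : (0 : ℝ) < N := by linarith
  rcases Set.eq_empty_or_nonempty
    ({x | ⌊Real.exp (y x)⌋₊ = N} ∩ {x | (⌊Real.exp (z x)⌋₊).Prime} ∩ Set.Icc s t) with he | ⟨τ, ⟨hτ, _⟩, hτI⟩
  · rw [he]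
    simp only [measureReal_empty]
    positivity
  · obtain ⟨lam, hlam⟩ : ∃ lam : ℝ, lam = 2 / p * (1 / N) := ⟨_, rfl⟩
    have hlam0 : 0 < lam := by rw [hlam]; positivity
    have hlam1 : lam ≤ 2 / p := by
      rw [hlam]
      have h2 : 1 / (N : ℝ) ≤ 1 := by
        rw [div_le_one hN0]; linarith
      calc 2 / (p : ℝ) * (1 / N) ≤ 2 / p * 1 := by gcongr
        _ = _ := by ring
    have hplam : p * lam = 2 / N := by rw [hlam]; field_simp
    have hplam1 : p * lam ≤ 1 := by
      rw [hplam, div_le_one hN0]; exact hNr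
    obtain ⟨u, hu⟩ : ∃ u : ℝ, u = τ - lam := ⟨_, rfl⟩
    have hua : a0 ≤ u := by rw [hu]; linarith [hτI.1]
    have hua1 : u + 2 * lam ≤ a1 := by rw [hu]; linarith [hτI.2]
    have hsub : {x | ⌊Real.exp (y x)⌋₊ = N} ∩ {x | (⌊Real.exp (z x)⌋₊).Prime} ∩ Set.Icc s t ⊆
        {x | (⌊Real.exp (z x)⌋₊).Prime} ∩ Set.Icc u (u + 2 * lam) := by
      rintro x ⟨⟨hx1, hx2⟩, hx3⟩
      refine ⟨hx2, ?_⟩
      have hs0 : a0 ≤ s := by
        have : 0 < 2 / (p : ℝ) := by positivity
        linarith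
      have ht0 : t ≤ a1 := by
        have : 0 < 2 / (p : ℝ) := by positivity
        linarith
      rcases le_total x τ with h | h
      · have h5 := lev hy hD hp1 hp0 (by omega : 1 ≤ N) (hs0.trans hx3.1) h (hτI.2.trans ht0) hx1 hτ
        rw [← hlam] at h5
        constructor
        · rw [hu]; linarith
        · rw [hu]; linarith
      · have h5 := lev hy hD hp1 hp0 (by omega : 1 ≤ N) (hs0.trans hτI.1) h (hx3.2.trans ht0) hτ hx1
        rw [← hlam] at h5
        constructor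
        · rw [hu]; linarith
        · rw [hu]; linarith
    have hu1 : u ≤ a1 := by linarith
    have hzu := (abs_le.1 (hz.near u ⟨hua, hu1⟩)).1
    have hyτ := (abs_le.1 (hy.near τ ⟨by rw [hu] at hua; linarith, by rw [hu] at hua1; linarith⟩)).2
    have hNle : (N : ℝ) ≤ Real.exp (y τ) := by
      have := Nat.floor_le (Real.exp_pos (y τ)).le
      rw [hτ] at this
      exact this
    obtain ⟨G, hG⟩ : ∃ G : ℝ, G = ((q : ℝ) - p) * a0 := ⟨_, rfl⟩
    rw [← hG] at hg1 hg2
    have hG0 : 0 < G := by rw [hG]; positivity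
    have hgu : G ≤ ((q : ℝ) - p) * u := by
      rw [hG]
      exact mul_le_mul_of_nonneg_left hua hqp.le
    have hpu : a0 * p ≤ p * u := by
      rw [mul_comm a0]
      exact mul_le_mul_of_nonneg_left hua hpr.le
    have hqu : (q : ℝ) * u = (q - p) * u + p * u := by ring
    have hz1 : G + 3 ≤ z u := by linarith
    have hz2 : y τ + G / 2 ≤ z u := by
      have e : p * τ = p * u + p * lam := by rw [hu]; ring
      linarith
    have hc := hcov hz hD (by linarith) (by omega) u (2 * lam) hua (by linarith) hua1 (by linarith)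
      (Real.exp (G / 2)) (by
        rw [← Real.log_le_iff_le_exp (by linarith)]
        linarith) (by
        have hmin : Real.exp (G / 2 - z u) ≤ min (q * (2 * lam) / 2) (1 / 8) := by
          refine le_min ?_ ?_
          · have h3 : Real.exp (G / 2 - z u) ≤ 1 / N := by
              rw [le_div_iff₀ hN0]
              calc Real.exp (G / 2 - z u) * N ≤ Real.exp (G / 2 - z u) * Real.exp (y τ) := by gcongr
                _ = Real.exp (G / 2 - z u + y τ) := by rw [← Real.exp_add]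
                _ ≤ Real.exp 0 := Real.exp_le_exp.2 (by linarith)
                _ = 1 := Real.exp_zero
            refine h3.trans ?_
            have h4 : p * lam ≤ q * lam := by gcongr
            have h6 : 1 / (N : ℝ) ≤ 2 / N := by gcongr; norm_num
            linarith
          · have h3 : Real.exp (G / 2 - z u) ≤ Real.exp (-3) := Real.exp_le_exp.2 (by linarith)
            have h4 : Real.exp (-3) ≤ 1 / 8 := by
              rw [Real.exp_neg, ← one_div]
              apply one_div_le_one_div_of_le (by norm_num)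
              have h5 : Real.exp 3 = Real.exp 1 * Real.exp 1 * Real.exp 1 := by
                rw [← Real.exp_add, ← Real.exp_add]; norm_num
              rw [h5]
              have h6 : (2 : ℝ) ≤ Real.exp 1 := by
                have := Real.add_one_le_exp (1 : ℝ)
                linarith
              calc (8 : ℝ) = 2 * 2 * 2 := by norm_num
                _ ≤ Real.exp 1 * Real.exp 1 * Real.exp 1 := by gcongr
            linarith
        calc Real.exp (G / 2) = Real.exp (z u) * Real.exp (G / 2 - z u) := by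
              rw [← Real.exp_add]; ring_nf
          _ ≤ _ := by gcongr)
    rw [Real.log_exp] at hc
    have hfin : volume ({x | (⌊Real.exp (z x)⌋₊).Prime} ∩ Set.Icc u (u + 2 * lam)) ≠ ⊤ :=
      ne_top_of_le_ne_top measure_Icc_lt_top.ne
        (measure_mono (Set.inter_subset_right (t := Set.Icc u (u + 2 * lam))))
    calc _ ≤ volume.real ({x | (⌊Real.exp (z x)⌋₊).Prime} ∩ Set.Icc u (u + 2 * lam)) :=
          measureReal_mono hsub hfin
      _ ≤ K * (2 * lam) / (G / 2) := hc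
      _ = _ := by
        rw [hlam, hG]
        field_simp
        ring

/-- **Pairs.** -/
lemma pair {a0 a1 D : ℝ} (ha0 : 0 < a0) (hD : 0 ≤ D) : ∃ K : ℝ, 0 < K ∧ ∀ s t : ℝ, a0 < s → s < t → t < a1 →
    ∀ᶠ p : ℕ in atTop, ∀ q : ℕ, p < q → ∀ y y' z z' : ℝ → ℝ, Lc a0 a1 D p y y' → Lc a0 a1 D q z z' →
    volume.real ({x | (⌊Real.exp (y x)⌋₊).Prime} ∩ {x | (⌊Real.exp (z x)⌋₊).Prime} ∩ Set.Ioc s t) ≤
      K * (t - s) * (1 / (p * ((q : ℝ) - p))) := by
  obtain ⟨K, hK, H0, hH0, hcov⟩ := cover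
  have hlH : 0 < Real.log H0 := Real.log_pos (by linarith)
  obtain ⟨g, hg⟩ : ∃ g : ℝ, g = 4 * D + 2 + 2 * Real.log H0 := ⟨_, rfl⟩
  have hg0 : 0 < g := by rw [hg]; positivity
  refine ⟨24 * K / a0 ^ 2 + 6 * g / a0 ^ 2, by positivity, ?_⟩
  intro s t hs hst ht
  have hts : 0 < t - s := by linarith
  have htend : Tendsto (fun n : ℕ => (2 : ℝ) / n) atTop (𝓝 0) := tendsto_const_div_atTop_nhds_zero_nat 2
  have hlin : Tendsto (fun n : ℕ => a0 * (n : ℝ)) atTop atTop :=
    tendsto_natCast_atTop_atTop.const_mul_atTop ha0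
  filter_upwards [recw ha0 hD hs hst ht, upper ha0 hD hs hst ht,
    (tendsto_natCast_atTop_atTop (R := ℝ)).eventually_ge_atTop (2 * D), eventually_gt_atTop 0,
    htend.eventually_le_const (show 0 < s - a0 by linarith),
    htend.eventually_le_const (show 0 < a1 - t by linarith),
    hlin.eventually_ge_atTop (D + 3)] with p h1 h2 h3 h4 h5 h6 h7 q hpq y y' z z' hy hz
  have hpr : (0 : ℝ) < p := by exact_mod_cast h4
  have hpqr : (p : ℝ) < q := by exact_mod_cast hpq
  have hqp : (0 : ℝ) < (q : ℝ) - p := by linarith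
  obtain ⟨g1, _⟩ := h1 y y' hy
  rcases lt_or_ge (((q : ℝ) - p) * a0) g with hlt | hge
  · have h8 := h2 y y' hy
    calc _ ≤ volume.real ({x | (⌊Real.exp (y x)⌋₊).Prime} ∩ Set.Ioc s t) := by
          refine measureReal_mono (Set.inter_subset_inter_left _ Set.inter_subset_left) ?_
          exact ne_top_of_le_ne_top (by simp) (measure_mono (Set.inter_subset_right (t := Set.Ioc s t)))
      _ ≤ 6 / a0 * (t - s) / p := h8
      _ = 6 * (((q : ℝ) - p) * a0) / a0 ^ 2 * (t - s) * (1 / (p * ((q : ℝ) - p))) := by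
          field_simp
      _ ≤ 6 * g / a0 ^ 2 * (t - s) * (1 / (p * ((q : ℝ) - p))) := by gcongr
      _ ≤ _ := by
          gcongr
          have : 0 ≤ 24 * K / a0 ^ 2 := by positivity
          linarith
  · have h8 := sum_vol hy hD h3 hs.le ht.le {x | (⌊Real.exp (z x)⌋₊).Prime}
    calc _ ≤ volume.real ({x | (⌊Real.exp (y x)⌋₊).Prime} ∩ {x | (⌊Real.exp (z x)⌋₊).Prime} ∩
            Set.Icc s t) := by
          refine measureReal_mono (Set.inter_subset_inter_right _ Set.Ioc_subset_Icc_self) ?_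
          exact ne_top_of_le_ne_top (by simp) (measure_mono (Set.inter_subset_right (t := Set.Icc s t)))
      _ ≤ _ := h8
      _ ≤ ∑ r ∈ (Icc ⌊Real.exp (y s)⌋₊ ⌊Real.exp (y t)⌋₊).filter Nat.Prime,
            8 * K / (a0 * p * (q - p)) * (1 / (r : ℝ)) := by
          refine Finset.sum_le_sum fun r hr => ?_
          rw [mem_filter] at hr
          exact pair_one hK hH0 hcov ha0 hD hy hz h4 hpq h3 h7 h5 h6 (by linarith) (by linarith)
            hr.2.two_le
      _ = 8 * K / (a0 * p * (q - p)) *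
            ∑ r ∈ (Icc ⌊Real.exp (y s)⌋₊ ⌊Real.exp (y t)⌋₊).filter Nat.Prime, 1 / (r : ℝ) := by
          rw [Finset.mul_sum]
      _ ≤ 8 * K / (a0 * p * (q - p)) * (3 * (t - s) / a0) := by gcongr
      _ = 24 * K / a0 ^ 2 * (t - s) * (1 / (p * ((q : ℝ) - p))) := by field_simp; ring
      _ ≤ _ := by
          gcongr
          have : 0 ≤ 6 * g / a0 ^ 2 := by positivity
          linarith

end Pool.Agent.Q267.DV
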