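import Mathlib
import Pool.Agent.Q267.DV.Abs
import Pool.Agent.Q267.DV.Pair2

set_option autoImplicit false

/-!
# Infinitely many prime values almost everywhere
-/

namespace Pool.Agent.Q267.DV

open MeasureTheory Filter Topology Finset
open Pool.Agent.Q43.LC (Lc LF windows)

theorem assemble {c0 : ℝ} (hc0 : 0 ≤ c0) {y : ℕ → ℝ → ℝ} (hym : ∀ m, Measurable (y m)) (hy : LF c0 y)
    {β : ℕ → ℕ → ℝ} (hβs : ∀ p q, β p q = β q p) (hβd : ∀ p, β p p = 1 / (p : ℝ))
    (hb : ∀ a0 a1 : ℝ, c0 < a0 → a0 < a1 → ∃ K : ℝ, 0 < K ∧ ∀ s t : ℝ, a0 < s → s < t → t < a1 →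
      ∀ᶠ p : ℕ in atTop, ∀ q : ℕ, p < q →
        volume.real ({x | (⌊Real.exp (y p x)⌋₊).Prime} ∩ {x | (⌊Real.exp (y q x)⌋₊).Prime} ∩
          Set.Ioc s t) ≤ K * (t - s) * β p q)
    {S : Set ℕ} {B : ℝ} (hB : 0 < B)
    (hS : ∀ M : ℕ, ∃ T : Finset ℕ, (∀ m ∈ T, m ∈ S ∧ M ≤ m) ∧ 0 < ∑ m ∈ T, 1 / (m : ℝ) ∧
      ∑ m ∈ T, ∑ n ∈ T, β m n ≤ B * (∑ m ∈ T, 1 / (m : ℝ)) ^ 2) :
    ∀ᵐ t : ℝ, c0 < t → ∀ M : ℕ, ∃ m ∈ S, M ≤ m ∧ (⌊Real.exp (y m t)⌋₊).Prime := by
  obtain ⟨y', hfam⟩ := id hy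
  refine windows fun a0 a1 h0 h01 => ?_
  obtain ⟨A, hA0, hA1⟩ : ∃ A : ℝ, c0 < A ∧ A < a0 := ⟨(c0 + a0) / 2, by linarith, by linarith⟩
  have hA : 0 < A := by linarith
  have hAB : A < a1 + 1 := by linarith
  obtain ⟨D, hD, hev⟩ := hfam A (a1 + 1) hA0 hAB
  obtain ⟨K, hK, hpair⟩ := hb A (a1 + 1) hA0 hAB
  have hpos : (0 : ℝ) < a1 + 1 := by linarith
  have hmeas : ∀ m, MeasurableSet {x | (⌊Real.exp (y m x)⌋₊).Prime} := fun m =>
    (Nat.measurable_floor.comp (Real.measurable_exp.comp (hym m)))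
      (MeasurableSet.of_discrete (s := {r : ℕ | r.Prime}))
  have hfull := full (E := fun m => {x | (⌊Real.exp (y m x)⌋₊).Prime}) hmeas (a0 := A) (a1 := a1 + 1)
    (c := 1 / (8 * (a1 + 1))) (K := max K (6 / A)) (by positivity) (lt_max_of_lt_left hK) β (by
      intro s t hs hst ht
      have hts : 0 < t - s := by linarith
      obtain ⟨M1, hM1⟩ := eventually_atTop.1 (lower hA hD hs hst ht)
      obtain ⟨M2, hM2⟩ := eventually_atTop.1 (upper hA hD hs hst ht)
      obtain ⟨M3, hM3⟩ := eventually_atTop.1 (hpair s t hs hst ht)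
      obtain ⟨M4, hM4⟩ := eventually_atTop.1 hev
      filter_upwards [eventually_ge_atTop M1, eventually_ge_atTop M2, eventually_ge_atTop M3,
        eventually_ge_atTop M4] with M g1 g2 g3 g4
      refine ⟨fun m hm => hM1 m (g1.trans hm) _ _ (hym m) (hM4 m (g4.trans hm)), ?_⟩
      have key : ∀ m ≥ M, ∀ n : ℕ, m ≤ n →
          volume.real ({x | (⌊Real.exp (y m x)⌋₊).Prime} ∩ {x | (⌊Real.exp (y n x)⌋₊).Prime} ∩
            Set.Ioc s t) ≤ max K (6 / A) * (t - s) * β m n := by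
        intro m hm n hmn
        rcases hmn.eq_or_lt with h | h
        · subst h
          rw [Set.inter_self, hβd]
          calc _ ≤ 6 / A * (t - s) / m := hM2 m (g2.trans hm) _ _ (hM4 m (g4.trans hm))
            _ ≤ max K (6 / A) * (t - s) / m := by
              gcongr
              exact le_max_right _ _
            _ = _ := by ring
        · have h5 := hM3 m (g3.trans hm) n h
          refine h5.trans ?_
          have hb0 : 0 ≤ β m n := by
            have h6 : 0 ≤ K * (t - s) * β m n := measureReal_nonneg.trans h5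
            by_contra hcon
            push Not at hcon
            have h7 : 0 < K * (t - s) := by positivity
            nlinarith
          gcongr
          exact le_max_left _ _
      intro m hm n hn
      rcases le_total m n with h | h
      · exact key m hm n h
      · rw [Set.inter_comm {x | (⌊Real.exp (y m x)⌋₊).Prime}, hβs]
        exact key n hn m h) S hB hS
  filter_upwards [hfull] with t ht htI
  exact ht ⟨by linarith [htI.1], by linarith [htI.2]⟩

end Pool.Agent.Q267.DV
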