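import Mathlib
import Pool.Agent.W66.CG
import Pool.Agent.Q267.DV.Pair2

set_option autoImplicit false

/-!
# Near pairs without the logarithm
-/

namespace Pool.Agent.Q267.DV

open Finset MeasureTheory Filter Topology
open Pool.Agent.W66 (NN_bounds)
open Pool.Agent.W66V
open Pool.Agent.W66C
open Pool.Agent.H305R2 (NN measurable_NN)
open Pool.Agent.H447R2.ML (Loc)

lemma exp_sq {c : ℝ} (hc : 0 < c) {p : ℝ} (hp : 0 < p) : Real.exp (-(c * p)) ≤ 2 / c ^ 2 * (1 / p) ^ 2 := by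
  have h1 := Real.quadratic_le_exp_of_nonneg (show 0 ≤ c * p by positivity)
  have h2 : (c * p) ^ 2 / 2 ≤ Real.exp (c * p) := by
    have : 0 ≤ c * p := by positivity
    linarith
  rw [Real.exp_neg]
  calc (Real.exp (c * p))⁻¹ ≤ ((c * p) ^ 2 / 2)⁻¹ := inv_anti₀ (by positivity) h2
    _ = _ := by field_simp

lemma main1 {J L : ℝ} {p R : ℕ} (hJ : 0 < J) (hL : 0 < L) (hp : 0 < p)
    (hR : Real.exp (L * p / 64) ≤ R + 1)
    (h : Real.log (R + 1) ≤ 2 * (((1 : ℕ) : ℝ) / (Nat.totient 1 : ℝ)) * J) :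
    4 / J ^ 2 ≤ 4 * (128 / L) ^ 2 * (1 / (p : ℝ)) ^ 2 := by
  have hp0 : (0 : ℝ) < p := by exact_mod_cast hp
  have h1 : L * p / 64 ≤ Real.log (R + 1) := by
    rw [Real.le_log_iff_exp_le (by positivity)]; exact hR
  simp only [Nat.cast_one, Nat.totient_one, div_one, mul_one] at h
  have h2 : L * p / 128 ≤ J := by linarith
  have h3 : 1 / J ≤ 128 / L * (1 / p) := by
    rw [div_le_iff₀ hJ]
    have h4 : 128 / L * (1 / p) * (L * p / 128) = 1 := by field_simp
    calc (1 : ℝ) = 128 / L * (1 / p) * (L * p / 128) := h4.symm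
      _ ≤ 128 / L * (1 / p) * J := by gcongr
  calc 4 / J ^ 2 = 4 * (1 / J) ^ 2 := by field_simp
    _ ≤ 4 * (128 / L * (1 / p)) ^ 2 := by gcongr
    _ = _ := by ring

open Classical in
/-- the sieve bound in one window -/
theorem nearW {a0 a1 D δ : ℝ} {h1 h2 : ℝ → ℝ} (ha0 : 0 < a0) (hD : 0 ≤ D) (h01 : a0 < a1)
    (hδ : 0 < δ) (hδ1 : δ ≤ 1) :
    ∃ K : ℝ, 0 < K ∧ ∀ᶠ p : ℕ in atTop, ∀ q : ℕ, p ≤ q → q ≤ 2 * p →
      ∀ y y' y'' z z' z'' : ℝ → ℝ, Cur a0 a1 D h1 p y y' y'' → Cur a0 a1 D h2 q z z' z'' →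
      (∀ t ∈ Set.Icc a0 a1, δ ≤ z' t - y' t) →
      ∃ w : ℝ → ℝ, Monotone w ∧ (∀ t ∈ Set.Icc a0 a1, w (y t) = z t) ∧
      ∀ Y, y a0 < Y → Y + 1 < y a1 →
      ∫ u in Set.Ioc Y (Y + 1), (if (NN u).Prime ∧ (NN (w u)).Prime
        then (1 : ℝ) else 0) ≤ K * (1 / (p : ℝ)) ^ 2 := by
  set L := a0 with hL
  set D2 := D - Real.log δ / 2 with hD2
  have hlδ : Real.log δ ≤ 0 := Real.log_nonpos hδ.le hδ1
  have hDD2 : D ≤ D2 := by rw [hD2]; linarith
  have hexD2 : Real.exp (-(2 * D2)) = δ * Real.exp (-(2 * D)) := by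
    have e : -(2 * D2) = Real.log δ + -(2 * D) := by rw [hD2]; ring
    rw [e, Real.exp_add, Real.exp_log hδ]
  have hlarge : ∀ᶠ p : ℕ in atTop, 25 * (D / δ) + 1 + (D2 + 2) * 64 / (47 * L) < p :=
    tendsto_natCast_atTop_atTop.eventually_gt_atTop _
  set a := 12 * (16 * Real.exp (D2 + 1 / 2) + 1) * (64 / L) * Real.exp (D2 / 2) with ha
  have ha0' : 0 < a := by positivity
  refine ⟨4 * (128 / L) ^ 2 + a * (2 / (21 * L / 64) ^ 2), by positivity, ?_⟩
  filter_upwards [hlarge, eventually_ge_atTop 2]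
    with p hpl hp2 q hpq hq2 y y' y'' z z' z'' hy hz hdiff
  have hp2' : (2 : ℝ) ≤ p := by exact_mod_cast hp2
  have hp0 : (0 : ℝ) < p := by linarith
  have hsmp := exp_sq (c := 21 * L / 64) (by positivity) hp0
  have hpqr : (p : ℝ) ≤ q := by exact_mod_cast hpq
  have hD20 : 0 ≤ D2 := by linarith
  have hx1 : 0 ≤ (D2 + 2) * 64 / (47 * L) := by positivity
  have hx2 : 0 ≤ D / δ := by positivity
  have hpl2 : (D2 + 2) * 64 / (47 * L) < p := by linarith
  rw [div_lt_iff₀ (by positivity)] at hpl2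
  obtain ⟨ψ, ψ', ψ'', w, hwm, hwy, hψw, hconv⟩ := psi_exists ha0 hD h01 hδ hδ1 (by linarith) hpq hq2
    hy hz hdiff
  refine ⟨w, hwm, hwy, fun Y hYa hYb => ?_⟩
  have hya0 : L * p - D ≤ y a0 := by
    have := (abs_le.1 (hy.loc.near a0 ⟨le_rfl, h01.le⟩)).1
    rw [hL]; linarith
  have hYlo : L * p - D ≤ Y := by linarith
  have hY0 : 0 ≤ Y := by
    have : 0 < L * p := by positivity
    linarith
  have hX1 : 1 ≤ Real.exp Y := Real.one_le_exp hY0
  -- values of `w`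
  have hwlo : ∀ u ∈ Set.Ioc Y (Y + 1), L * q - D ≤ w u := by
    intro u hu
    have himg := intermediate_value_Icc h01.le hy.loc.cont
      (show u ∈ Set.Icc (y a0) (y a1) from ⟨by linarith [hu.1], by linarith [hu.2]⟩)
    obtain ⟨t, ht, rfl⟩ := himg
    rw [hwy t ht]
    have h2 := (abs_le.1 (hz.loc.near t ht)).1
    have h3 : (q : ℝ) * L ≤ q * t := mul_le_mul_of_nonneg_left (by rw [hL]; exact ht.1) (by linarith)
    linarith
  -- the sieve level
  set R := ⌊Real.exp (L * p / 64)⌋₊ with hR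
  have hexp1 : 1 ≤ Real.exp (L * p / 64) := Real.one_le_exp (by positivity)
  have hR1 : 1 ≤ R := by rw [hR, Nat.one_le_floor_iff]; exact hexp1
  have hRle : (R : ℝ) ≤ Real.exp (L * p / 64) := Nat.floor_le (Real.exp_pos _).le
  have hRgt : Real.exp (L * p / 64) ≤ R + 1 := (Nat.lt_floor_add_one _).le
  set ρ := δ * Real.exp (-(2 * D)) / (4 * (p * (Real.exp 1 * Real.exp Y))) with hρ
  have hρ0 : 0 < ρ := by positivity
  set ε := 12 * BC (R ^ 2) ρ (Real.exp Y) with hε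
  have hε0 : 0 ≤ ε := mul_nonneg (by norm_num) (BC_nonneg hX1)
  have hcv := hconv Y hYa hYb
  set f : ℝ → ℝ := fun u => if (NN u).Prime ∧ (NN (w u)).Prime then (1 : ℝ) else 0 with hf
  have hmP : MeasurableSet {u : ℝ | (NN u).Prime} :=
    measurable_NN (MeasurableSet.of_discrete (s := {r : ℕ | r.Prime}))
  have hmeas : Measurable f := by
    refine Measurable.ite ?_ measurable_const measurable_const
    exact hmP.inter (hwm.measurable hmP)
  have hbigR : ∀ (v : ℝ), L * p - D ≤ v → (R : ℝ) < NN v := by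
    intro v hv
    have h1 := size_exp (u := L * p / 64) (v := v) (by positivity) (by
      linarith)
    have h2 := (NN_bounds v).2
    have h3 := Real.exp_pos v
    linarith
  have hnd : ∀ (v : ℝ), L * p - D ≤ v → (NN v).Prime → ∀ l : ℕ, l.Prime → l ≤ R → ¬ l ∣ NN v := by
    intro v hv hpr l hl hlR hd
    have h1 := (Nat.prime_dvd_prime_iff_eq hl hpr).1 hd
    have h2 := hbigR v hv
    rw [← h1] at h2
    have h3 : (l : ℝ) ≤ R := by exact_mod_cast hlR
    linarith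
  obtain ⟨J, hJ0, hJ1, hJ2⟩ := joint_sift_log (R := R) (M := 1) hR1 one_ne_zero (ε := ε)
    (Y := Y) hε0
    (ψ := ψ) hcv.contOn
    (fun D' E hD' hD2 hE hE2 => corr_conv (Q := R ^ 2) hcv hX1 hρ0 (Nat.one_le_pow _ _ hR1)
      hD' hD2 hE hE2)
    (f := f)
    (by
      refine Measure.integrableOn_of_bounded (M := 1) (by simp) hmeas.aestronglyMeasurable ?_
      refine Eventually.of_forall fun y => ?_
      simp only [hf]
      split_ifs <;> simp)
    (fun y _ => by simp only [hf]; split_ifs <;> norm_num)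
    (by
      intro u hu hfu
      have hgd : (NN u).Prime ∧ (NN (w u)).Prime := by
        by_contra hc
        simp only [hf] at hfu
        rw [if_neg hc] at hfu
        exact lt_irrefl _ hfu
      obtain ⟨g1, g3⟩ := hgd
      obtain ⟨n1, n2⟩ := NN_bounds u
      obtain ⟨n3, n4⟩ := NN_bounds (w u)
      refine ⟨NN u, NN (w u), n1, n2, by rw [hψw]; exact n3, by rw [hψw]; exact n4,
        fun l hl hlR _ => ?_⟩
      constructor
      · exact hnd u (by linarith [hu.1]) g1 l hl hlR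
      · refine hnd (w u) ?_ g3 l hl hlR
        have h2 := hwlo u hu
        have h3 : L * p ≤ L * q := mul_le_mul_of_nonneg_left hpqr ha0.le
        linarith)
  refine hJ2.trans ?_
  have hm := main1 hJ0 ha0 (by omega) hRgt hJ1
  have he := err_c (R := R) (L := L) (D := D2) (Y := Y) (p := p) ha0 (by omega) hR1 hRle
    (by linarith) hY0
  rw [hexD2] at he
  have he2 : (R : ℝ) ^ 8 * ε ≤ a * (2 / (21 * L / 64) ^ 2 * (1 / (p : ℝ)) ^ 2) :=
    he.trans (mul_le_mul_of_nonneg_left hsmp ha0'.le)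
  calc 4 / J ^ 2 + (R : ℝ) ^ 8 * ε ≤ 4 * (128 / L) ^ 2 * (1 / (p : ℝ)) ^ 2 +
        a * (2 / (21 * L / 64) ^ 2 * (1 / (p : ℝ)) ^ 2) := add_le_add hm he2
    _ = _ := by ring

end Pool.Agent.Q267.DV
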