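import Mathlib
import Pool.Agent.Q267.DV.Near

set_option autoImplicit false

/-!
# Near pairs in a short window
-/

namespace Pool.Agent.Q267.DV

open Finset MeasureTheory Filter Topology
open Pool.Agent.W66 (NN_bounds)
open Pool.Agent.W66V
open Pool.Agent.W66C
open Pool.Agent.H305R2 (NN measurable_NN)
open Pool.Agent.H447R2.ML (Loc)
open Pool.Agent.Q43.LC (Lc LF)

lemma floor_NN (v : ℝ) : ⌊Real.exp v⌋₊ = NN v ∨ ∃ r : ℕ, Real.exp v = r := by
  obtain ⟨n1, n2⟩ := NN_bounds v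
  rcases n2.eq_or_lt with h | h
  · exact Or.inr ⟨NN v + 1, by push_cast; exact h⟩
  · left
    rw [Nat.floor_eq_iff (Real.exp_pos v).le]
    exact ⟨n1.le, h⟩

lemma null_nat {a0 a1 D : ℝ} {m : ℕ} {y y' : ℝ → ℝ} (hy : Lc a0 a1 D m y y') (hD : 0 ≤ D)
    (hm : 2 * D ≤ m) (hm0 : 0 < m) {s t : ℝ} (hs : a0 ≤ s) (ht : t ≤ a1) :
    volume {x | x ∈ Set.Ioc s t ∧ ∃ r : ℕ, Real.exp (y x) = r} = 0 := by
  have hm0' : (0 : ℝ) < m := by exact_mod_cast hm0
  have e : {x | x ∈ Set.Ioc s t ∧ ∃ r : ℕ, Real.exp (y x) = r} =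
      ⋃ r : ℕ, {x | x ∈ Set.Ioc s t ∧ Real.exp (y x) = r} := by
    ext x; simp
  rw [e, measure_iUnion_null_iff]
  intro r
  refine Set.Subsingleton.measure_zero ?_ _
  have key : ∀ x x' : ℝ, x ∈ Set.Ioc s t → x' ∈ Set.Ioc s t → y x = y x' → x ≤ x' → x = x' := by
    intro x x' hx hx' h1 h
    have h2 := (mv hy hD hm (hs.trans hx.1.le) h (hx'.2.trans ht)).1
    rw [h1, sub_self] at h2
    by_contra hne
    have h3 : x < x' := lt_of_le_of_ne h hne
    have h4 : (0 : ℝ) < m / 2 * (x' - x) := mul_pos (by positivity) (by linarith)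
    linarith
  rintro x ⟨hx, hxr⟩ x' ⟨hx', hxr'⟩
  have h1 : y x = y x' := Real.exp_injective (hxr.trans hxr'.symm)
  rcases le_total x x' with h | h
  · exact key x x' hx hx' h1 h
  · exact (key x' x hx' hx h1.symm h).symm

lemma Loc_Lc {a0 a1 D : ℝ} {m : ℕ} {y y' : ℝ → ℝ} (h : Loc a0 a1 D m y y') : Lc a0 a1 D m y y' :=
  ⟨h.near, h.der, h.slope⟩

open Classical in
/-- **Near pairs in a short window.** -/
theorem near2 {a0 a1 D δ : ℝ} {h1 h2 : ℝ → ℝ} (ha0 : 0 < a0) (hD : 0 ≤ D) (h01 : a0 < a1)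
    (hδ : 0 < δ) (hδ1 : δ ≤ 1) :
    ∃ K : ℝ, 0 < K ∧ ∀ s t : ℝ, a0 < s → s < t → t < a1 → ∀ᶠ p : ℕ in atTop, ∀ q : ℕ, p ≤ q →
      q ≤ 2 * p → ∀ y y' y'' z z' z'' : ℝ → ℝ, Measurable y → Cur a0 a1 D h1 p y y' y'' →
      Cur a0 a1 D h2 q z z' z'' → (∀ t ∈ Set.Icc a0 a1, δ ≤ z' t - y' t) →
      volume.real ({x | (⌊Real.exp (y x)⌋₊).Prime} ∩ {x | (⌊Real.exp (z x)⌋₊).Prime} ∩
        Set.Ioc s t) ≤ K * (t - s) * (1 / (p : ℝ)) ^ 2 := by
  obtain ⟨K1, hK1, hW⟩ := nearW (h1 := h1) (h2 := h2) ha0 hD h01 hδ hδ1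
  refine ⟨3 * K1, by positivity, ?_⟩
  intro s t hs hst ht
  have hts : 0 < t - s := by linarith
  have hl : ∀ᶠ q : ℕ in atTop, 3 * D + 1 / (t - s) + 1 / (a1 - t) + 1 < q :=
    tendsto_natCast_atTop_atTop.eventually_gt_atTop _
  have i1 : 0 < 1 / (t - s) := by positivity
  have i2 : 0 < 1 / (a1 - t) := by
    have : 0 < a1 - t := by linarith
    positivity
  filter_upwards [hW, hl, eventually_ge_atTop 1] with p hWp hlp hp1 q hpq hq2 y y' y'' z z' z'' hym hy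
    hz hdiff
  have hp0 : (0 : ℝ) < p := by exact_mod_cast hp1
  have hpqr : (p : ℝ) ≤ q := by exact_mod_cast hpq
  have hpD : 3 * D < p := by linarith
  obtain ⟨w, hwm, hwy, hwin⟩ := hWp q hpq hq2 y y' y'' z z' z'' hy hz hdiff
  have hmP : MeasurableSet {u : ℝ | (NN u).Prime} :=
    measurable_NN (MeasurableSet.of_discrete (s := {r : ℕ | r.Prime}))
  set G : ℝ → ℝ := fun u => if (NN u).Prime ∧ (NN (w u)).Prime then (1 : ℝ) else 0 with hG
  have hGm : Measurable G := by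
    refine Measurable.ite ?_ measurable_const measurable_const
    exact hmP.inter (hwm.measurable hmP)
  have hG0 : ∀ y, 0 ≤ G y := fun y => by simp only [hG]; split_ifs <;> norm_num
  have hG1 : ∀ y, G y ≤ 1 := fun y => by simp only [hG]; split_ifs <;> norm_num
  have hmvt := hy.loc.mvt hpD hD hs.le hst.le ht.le
  have hy01 : y s ≤ y t := by
    have : 0 ≤ (p - D) * (t - s) := mul_nonneg (by linarith) (by linarith)
    linarith
  have hB0 : 0 ≤ K1 * (1 / (p : ℝ)) ^ 2 := by positivity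
  have h2 := cover_nonneg hGm hG0 hG1 hy01 hB0 (fun Y hY0 hY1 => by
    refine hwin Y ?_ ?_
    · have h2 := (hy.loc.mvt hpD hD le_rfl hs.le (by linarith)).1
      have h3 : 0 < (p - D) * (s - a0) := mul_pos (by linarith) (by linarith)
      linarith
    · have h2 := (hy.loc.mvt hpD hD (by linarith) ht.le le_rfl).1
      have h3 : 1 < (p - D) * (a1 - t) := by
        have h4 : 1 / (a1 - t) < p - D := by linarith
        rwa [div_lt_iff₀ (by linarith)] at h4
      linarith)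
  have h3 := (hy.loc.cov hpD hD hs.le hst.le ht.le hGm hG0 hG1).1
  have h4 : (y t - y s + 1) ≤ (p - D) * (3 * (t - s)) := by
    have h10 : (p + D) * (t - s) ≤ 2 * (p - D) * (t - s) :=
      mul_le_mul_of_nonneg_right (by linarith) (by linarith)
    have h11 : 1 < (p - D) * (t - s) := by
      have h4 : 1 / (t - s) < p - D := by linarith
      rwa [div_lt_iff₀ (by linarith)] at h4
    linarith [hmvt.2]
  have h5 : (p - D) * ∫ x in Set.Ioc s t, G (y x) ≤ (p - D) * (3 * (t - s) * (K1 * (1 / (p : ℝ)) ^ 2)) := by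
    refine h3.trans (h2.trans ?_)
    calc (y t - y s + 1) * (K1 * (1 / (p : ℝ)) ^ 2) ≤ ((p - D) * (3 * (t - s))) * (K1 * (1 / (p : ℝ)) ^ 2) :=
          mul_le_mul_of_nonneg_right h4 hB0
      _ = _ := by ring
  have h6 := le_of_mul_le_mul_left h5 (by linarith)
  have hmQ : MeasurableSet {x : ℝ | (NN (y x)).Prime ∧ (NN (w (y x))).Prime} :=
    (hym hmP).inter (hym (hwm.measurable hmP))
  have h7 : ∫ x in Set.Ioc s t, G (y x) =
      volume.real ({x : ℝ | (NN (y x)).Prime ∧ (NN (w (y x))).Prime} ∩ Set.Ioc s t) := by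
    have e : (fun x => G (y x)) =
        ({x : ℝ | (NN (y x)).Prime ∧ (NN (w (y x))).Prime}).indicator (fun _ => (1 : ℝ)) := by
      funext x
      simp only [hG, Set.indicator_apply, Set.mem_ofPred_eq]
    rw [e, integral_indicator_const _ hmQ, measureReal_restrict_apply hmQ]
    simp
  rw [h7] at h6
  refine le_trans ?_ (h6.trans (le_of_eq (by ring)))
  have hN1 := null_nat (Loc_Lc hy.loc) hD (by linarith) (by omega) hs.le ht.le
  have hN2 := null_nat (Loc_Lc hz.loc) hD (by linarith) (by omega) hs.le ht.le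
  refine ENNReal.toReal_mono (ne_top_of_le_ne_top (by simp)
    (measure_mono (Set.inter_subset_right (t := Set.Ioc s t)))) (measure_mono_ae ?_)
  have hN3 := measure_union_null hN1 hN2
  have hae : ∀ᵐ x, x ∉ {x | x ∈ Set.Ioc s t ∧ ∃ r : ℕ, Real.exp (y x) = r} ∪
      {x | x ∈ Set.Ioc s t ∧ ∃ r : ℕ, Real.exp (z x) = r} := measure_eq_zero_iff_ae_notMem.1 hN3
  filter_upwards [hae] with x hx hxA
  obtain ⟨⟨g1, g2⟩, g3⟩ := hxA
  have g4 : ¬ ∃ r : ℕ, Real.exp (y x) = r := fun h => hx (Or.inl ⟨g3, h⟩)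
  have g5 : ¬ ∃ r : ℕ, Real.exp (z x) = r := fun h => hx (Or.inr ⟨g3, h⟩)
  have e1 := (floor_NN (y x)).resolve_right g4
  have e2 := (floor_NN (z x)).resolve_right g5
  refine ⟨⟨?_, ?_⟩, g3⟩
  · show (NN (y x)).Prime
    rw [← e1]; exact g1
  · show (NN (w (y x))).Prime
    rw [hwy x ⟨hs.le.trans g3.1.le, g3.2.trans ht.le⟩, ← e2]; exact g2

end Pool.Agent.Q267.DV
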