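import Mathlib
import Pool.Agent.Q43.LC.Cheb
import Pool.Agent.Q267.DV.Near2

set_option autoImplicit false

/-!
# The Chebyshev family as a curve family
-/

namespace Pool.Agent.Q267.DV

open Finset MeasureTheory Filter Topology
open Pool.Agent.W66C
open Pool.Agent.H447R2.ML (Loc)
open Pool.Agent.Q43.LC (Lc LF cy)

lemma small_exp {a0 : ℝ} (ha0 : 0 < a0) :
    ∀ᶠ m : ℕ in atTop, 32 * ((m : ℝ) ^ 2 * Real.exp (-(a0 * m))) ≤ 1 / 8 := by
  have h3 := (Real.tendsto_pow_mul_exp_neg_atTop_nhds_zero 2).comp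
    ((tendsto_natCast_atTop_atTop (R := ℝ)).const_mul_atTop ha0)
  filter_upwards [h3.eventually_lt_const (show 0 < a0 ^ 2 / 256 by positivity)] with m hm
  simp only [Function.comp] at hm
  have e : (a0 * (m : ℝ)) ^ 2 * Real.exp (-(a0 * m)) = a0 ^ 2 * ((m : ℝ) ^ 2 * Real.exp (-(a0 * m))) := by
    ring
  rw [e] at hm
  have h4 : 0 < a0 ^ 2 := by positivity
  have h5 : (m : ℝ) ^ 2 * Real.exp (-(a0 * m)) < 1 / 256 := by
    by_contra hcon
    push Not at hcon
    have := mul_le_mul_of_nonneg_left hcon h4.le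
    linarith
  linarith

lemma cur_c (c : ℝ) {a0 a1 : ℝ} (ha0 : 0 < a0) : ∀ᶠ m : ℕ in atTop, ∃ y' y'' : ℝ → ℝ,
    Cur a0 a1 (|c| + 4) (fun _ => 0) m (cy (fun _ => c) m) y' y'' := by
  filter_upwards [small_exp ha0, eventually_ge_atTop 1] with m hsm hm1
  have hm1' : (1 : ℝ) ≤ m := by exact_mod_cast hm1
  have hm0 : (0 : ℝ) < m := by linarith
  obtain ⟨η, hη⟩ : ∃ η : ℝ, η = Real.exp (-(a0 * m)) := ⟨_, rfl⟩
  have hη0 : 0 < η := by rw [hη]; exact Real.exp_pos _
  have hη1 : η ≤ 1 := by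
    rw [hη]
    refine Real.exp_le_one_iff.2 ?_
    have : 0 < a0 * m := by positivity
    linarith
  rw [← hη] at hsm
  obtain ⟨e1, he1⟩ : ∃ e1 : ℝ → ℝ, e1 = fun t => Real.exp (-((m : ℝ) * (1 * t - 0))) := ⟨_, rfl⟩
  obtain ⟨e2, he2⟩ : ∃ e2 : ℝ → ℝ, e2 = fun t => Real.exp (-((m : ℝ) * (2 * t - 0))) := ⟨_, rfl⟩
  have p1 : ∀ t, 0 < e1 t := fun t => by rw [he1]; exact Real.exp_pos _
  have p2 : ∀ t, 0 < e2 t := fun t => by rw [he2]; exact Real.exp_pos _
  have b1 : ∀ t, a0 ≤ t → e1 t ≤ η := fun t ht => by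
    rw [he1, hη]
    refine Real.exp_le_exp.2 ?_
    have := mul_le_mul_of_nonneg_left ht hm0.le
    linarith
  have b2 : ∀ t, a0 ≤ t → e2 t ≤ η := fun t ht => by
    rw [he2, hη]
    refine Real.exp_le_exp.2 ?_
    have h1 := mul_le_mul_of_nonneg_left ht hm0.le
    have h2 : 0 ≤ (m : ℝ) * a0 := by positivity
    have h3 : 0 ≤ (m : ℝ) * t := h2.trans h1
    have h4 : (m : ℝ) * (2 * t - 0) = 2 * (m * t) := by ring
    rw [h4]
    linarith
  have d1 : ∀ t, HasDerivAt e1 (e1 t * (-(m * 1))) t := fun t => by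
    rw [he1]
    have h := ((((hasDerivAt_id t).const_mul (1 : ℝ)).sub_const 0).const_mul (m : ℝ)).neg.exp
    refine h.congr_deriv ?_
    simp
  have d2 : ∀ t, HasDerivAt e2 (e2 t * (-(m * 2))) t := fun t => by
    rw [he2]
    have h := ((((hasDerivAt_id t).const_mul (2 : ℝ)).sub_const 0).const_mul (m : ℝ)).neg.exp
    refine h.congr_deriv ?_
    simp
  obtain ⟨V, hV⟩ : ∃ V : ℝ → ℝ, V = fun t => 1 + (5 / 2 * e1 t + 1 * e2 t) := ⟨_, rfl⟩
  obtain ⟨V1, hV1⟩ : ∃ V1 : ℝ → ℝ, V1 = fun t => 5 / 2 * (e1 t * (-(m * 1))) + 1 * (e2 t * (-(m * 2))) :=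
    ⟨_, rfl⟩
  obtain ⟨V2, hV2⟩ : ∃ V2 : ℝ → ℝ, V2 = fun t => 5 / 2 * (e1 t * (-(m * 1)) * (-(m * 1))) +
    1 * (e2 t * (-(m * 2)) * (-(m * 2))) := ⟨_, rfl⟩
  have dV : ∀ t, HasDerivAt V (V1 t) t := fun t => by
    rw [hV, hV1]
    exact (((d1 t).const_mul (5 / 2)).add ((d2 t).const_mul 1)).const_add 1
  have dV1 : ∀ t, HasDerivAt V1 (V2 t) t := fun t => by
    rw [hV1, hV2]
    exact (((d1 t).mul_const _).const_mul (5 / 2)).add (((d2 t).mul_const _).const_mul 1)
  have V1le : ∀ t, 1 ≤ V t := fun t => by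
    rw [hV]
    have h1 := p1 t
    have h2 := p2 t
    simp only
    linarith
  have Vpos : ∀ t, 0 < V t := fun t => by linarith [V1le t]
  have Vle : ∀ t, a0 ≤ t → V t ≤ 1 + 7 / 2 := fun t ht => by
    rw [hV]
    have h1 := b1 t ht
    have h2 := b2 t ht
    simp only
    linarith
  have hmη : 0 < m * η := by positivity
  have V1b : ∀ t, a0 ≤ t → |V1 t| ≤ 5 * (m * η) := fun t ht => by
    have h1 := mul_le_mul_of_nonneg_left (b1 t ht) hm0.le
    have h2 := mul_le_mul_of_nonneg_left (b2 t ht) hm0.le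
    have h3 := mul_pos hm0 (p1 t)
    have h4 := mul_pos hm0 (p2 t)
    have e : V1 t = -(5 / 2 * (m * e1 t) + 2 * (m * e2 t)) := by rw [hV1]; ring
    rw [e, abs_neg, abs_of_pos (by positivity)]
    linarith
  have hm2 : (m : ℝ) * η ≤ m ^ 2 * η := by
    have : (m : ℝ) ≤ m ^ 2 := by nlinarith
    gcongr
  have V2b : ∀ t, a0 ≤ t → |V2 t| ≤ 7 * (m ^ 2 * η) := fun t ht => by
    have hmm : (0 : ℝ) < (m : ℝ) ^ 2 := by positivity
    have h1 := mul_le_mul_of_nonneg_left (b1 t ht) hmm.le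
    have h2 := mul_le_mul_of_nonneg_left (b2 t ht) hmm.le
    have h3 := mul_pos hmm (p1 t)
    have h4 := mul_pos hmm (p2 t)
    have e : V2 t = 5 / 2 * (m ^ 2 * e1 t) + 4 * (m ^ 2 * e2 t) := by rw [hV2]; ring
    rw [e, abs_of_pos (by positivity)]
    have h5 : 0 < (m : ℝ) ^ 2 * η := by positivity
    linarith
  have hcy : cy (fun _ => c) m = fun t => m * t + c + Real.log (V t) := by
    funext t
    rw [hV, he1, he2]
    rfl
  have V1s : ∀ t, a0 ≤ t → |V1 t / V t| ≤ 1 / 8 := fun t ht => by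
    rw [abs_div, abs_of_pos (Vpos t), div_le_iff₀ (Vpos t)]
    have h1 := V1b t ht
    have h2 := V1le t
    have h3 : 5 * (m * η) ≤ 1 / 8 := by linarith
    linarith
  have hc0 := abs_nonneg c
  refine ⟨fun t => m + V1 t / V t, fun t => (V2 t * V t - V1 t * V1 t) / V t ^ 2, ⟨?_, ?_, ?_⟩, ?_, ?_,
    ?_, ?_⟩
  · intro t ht
    rw [hcy]
    have h1 : 0 ≤ Real.log (V t) := Real.log_nonneg (V1le t)
    have h2 : Real.log (V t) ≤ 7 / 2 := by
      have := Real.log_le_sub_one_of_pos (Vpos t)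
      linarith [Vle t ht.1]
    have e : (fun t => (m : ℝ) * t + c + Real.log (V t)) t - m * t = c + Real.log (V t) := by
      simp only; ring
    rw [e]
    refine (abs_add_le _ _).trans ?_
    rw [abs_of_nonneg h1]
    linarith
  · intro t ht
    rw [hcy]
    have h1 := (((hasDerivAt_id t).const_mul (m : ℝ)).add_const c).add ((dV t).log (Vpos t).ne')
    refine h1.congr_deriv ?_
    simp
  · intro t ht
    have e : (fun t => (m : ℝ) + V1 t / V t) t - m = V1 t / V t := by simp only; ring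
    rw [e]
    linarith [V1s t ht.1]
  · intro t ht
    exact ((dV1 t).div (dV t) (Vpos t).ne').const_add _
  · have cV : Continuous V := continuous_iff_continuousAt.2 fun t => (dV t).continuousAt
    have cV1 : Continuous V1 := continuous_iff_continuousAt.2 fun t => (dV1 t).continuousAt
    have cV2 : Continuous V2 := by
      rw [hV2, he1, he2]
      fun_prop
    exact (((cV2.mul cV).sub (cV1.mul cV1)).div (cV.pow 2) fun t => pow_ne_zero 2 (Vpos t).ne').continuousOn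
  · intro t ht
    have e : (fun t => (m : ℝ) + V1 t / V t) t - m - (fun _ => (0 : ℝ)) t = V1 t / V t := by
      simp only; ring
    rw [e]
    exact V1s t ht.1
  · intro t ht
    have hVp := Vpos t
    have e : (V2 t * V t - V1 t * V1 t) / V t ^ 2 = V2 t / V t - V1 t / V t * (V1 t / V t) := by
      field_simp
    show |(V2 t * V t - V1 t * V1 t) / V t ^ 2| ≤ _
    rw [e]
    have h1 := V1s t ht.1
    have h2 : |V2 t / V t| ≤ 1 / 8 := by
      rw [abs_div, abs_of_pos hVp, div_le_iff₀ hVp]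
      have h3 := V2b t ht.1
      have h4 := V1le t
      have h5 : 0 < (m : ℝ) ^ 2 * η := by positivity
      have h6 : 7 * ((m : ℝ) ^ 2 * η) ≤ 1 / 8 := by linarith
      linarith
    have h3 : |V1 t / V t * (V1 t / V t)| ≤ 1 / 8 * (1 / 8) := by
      rw [abs_mul]
      exact mul_le_mul h1 h1 (abs_nonneg _) (by norm_num)
    refine (abs_sub _ _).trans ?_
    linarith

end Pool.Agent.Q267.DV
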