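import Mathlib
import Pool.Agent.Q267.DV.CurC
import Pool.Agent.Q267.DV.Asm

set_option autoImplicit false

/-!
# Infinitely many prime values almost everywhere: curve families
-/

namespace Pool.Agent.Q267.DV

open MeasureTheory Filter Topology Finset
open Pool.Agent.W66C
open Pool.Agent.Q43.LC (Lc LF cy)

/-- the weights -/
noncomputable def bet (p q : ℕ) : ℝ := if p = q then 1 / (p : ℝ) else 1 / ((p : ℝ) * q)

lemma bet_symm (p q : ℕ) : bet p q = bet q p := by
  unfold bet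
  by_cases h : p = q
  · subst h; rfl
  · rw [if_neg h, if_neg (Ne.symm h), mul_comm]

lemma bet_diag (p : ℕ) : bet p p = 1 / (p : ℝ) := by
  unfold bet; rw [if_pos rfl]

/-- late finite subsets of a divergent index set -/
lemma late {S : Set ℕ} (hS : ¬ Summable fun m : S => 1 / ((m : ℕ) : ℝ)) (M : ℕ) :
    ∃ T : Finset ℕ, (∀ m ∈ T, m ∈ S ∧ M ≤ m) ∧ 0 < ∑ m ∈ T, 1 / (m : ℝ) ∧
      ∑ m ∈ T, ∑ n ∈ T, bet m n ≤ 2 * (∑ m ∈ T, 1 / (m : ℝ)) ^ 2 := by
  classical
  set g : ℕ → ℝ := S.indicator (fun m => 1 / (m : ℝ)) with hg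
  have hg0 : ∀ m, 0 ≤ g m := fun m => by
    rw [hg]
    exact Set.indicator_nonneg (fun _ _ => by positivity) _
  have h1 : ¬ Summable g := fun h => hS (summable_subtype_iff_indicator.2 h)
  have h2 : ¬ Summable fun k => g (k + M) := fun h => h1 ((summable_nat_add_iff M).1 h)
  rw [not_summable_iff_tendsto_nat_atTop_of_nonneg fun k => hg0 _] at h2
  obtain ⟨N, hN⟩ := (h2.eventually_ge_atTop 1).exists
  set T : Finset ℕ := (Finset.Ico M (M + N)).filter (· ∈ S) with hT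
  have e : ∑ m ∈ T, 1 / (m : ℝ) = ∑ k ∈ Finset.range N, g (k + M) := by
    rw [hT, Finset.sum_filter]
    have e1 : Finset.Ico M (M + N) = Finset.Ico (0 + M) (N + M) := by
      rw [zero_add, add_comm]
    rw [e1, ← Finset.sum_Ico_add' (fun m => if m ∈ S then 1 / (m : ℝ) else 0) 0 N M,
      Finset.range_eq_Ico]
    refine Finset.sum_congr rfl fun k _ => ?_
    rw [hg, Set.indicator_apply]
  rw [← e] at hN
  refine ⟨T, ?_, by linarith, ?_⟩
  · intro m hm
    rw [hT, Finset.mem_filter, Finset.mem_Ico] at hm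
    exact ⟨hm.2, hm.1.1⟩
  · set v := ∑ m ∈ T, 1 / (m : ℝ) with hv
    have hb : ∀ m ∈ T, ∑ n ∈ T, bet m n ≤ 1 / (m : ℝ) + 1 / (m : ℝ) * v := by
      intro m hm
      calc ∑ n ∈ T, bet m n ≤ ∑ n ∈ T, ((if n = m then 1 / (m : ℝ) else 0) + 1 / (m : ℝ) * (1 / n)) := by
            refine Finset.sum_le_sum fun n _ => ?_
            unfold bet
            by_cases h : m = n
            · subst h
              rw [if_pos rfl, if_pos rfl]
              have : (0 : ℝ) ≤ 1 / (m : ℝ) * (1 / m) := by positivity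
              linarith
            · rw [if_neg h, if_neg (Ne.symm h), zero_add, one_div_mul_one_div]
        _ = 1 / (m : ℝ) + 1 / (m : ℝ) * v := by
            rw [Finset.sum_add_distrib, Finset.sum_ite_eq' T m, if_pos hm, hv, Finset.mul_sum]
    calc ∑ m ∈ T, ∑ n ∈ T, bet m n ≤ ∑ m ∈ T, (1 / (m : ℝ) + 1 / (m : ℝ) * v) := Finset.sum_le_sum hb
      _ = v + v * v := by rw [Finset.sum_add_distrib, ← Finset.sum_mul, ← hv]
      _ ≤ 2 * v ^ 2 := by nlinarith

/-- **Curve families.** If in every window the functions `y m` are, for large `m`, at a bounded distance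
from `m t` with bounded curvature and slope within `1/8` of `m`, then for every index set `S` with
divergent sum of `1 / m` almost every parameter has infinitely many prime values. -/
theorem ae_inf {c0 : ℝ} (hc0 : 0 ≤ c0) {y : ℕ → ℝ → ℝ} (hym : ∀ m, Measurable (y m)) (hy : LF c0 y)
    (hcur : ∀ a0 a1 : ℝ, c0 < a0 → a0 < a1 → ∃ D : ℝ, 0 ≤ D ∧ ∀ᶠ m : ℕ in atTop, ∃ y' y'' : ℝ → ℝ,
      Cur a0 a1 D (fun _ => 0) m (y m) y' y'')
    {S : Set ℕ} (hS : ¬ Summable fun m : S => 1 / ((m : ℕ) : ℝ)) :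
    ∀ᵐ t : ℝ, c0 < t → ∀ M : ℕ, ∃ m ∈ S, M ≤ m ∧ (⌊Real.exp (y m t)⌋₊).Prime := by
  refine assemble hc0 hym hy bet_symm bet_diag ?_ (B := 2) two_pos (late hS)
  intro a0 a1 h0 h01
  have ha0 : 0 < a0 := by linarith
  obtain ⟨D, hD, hev⟩ := hcur a0 a1 h0 h01
  obtain ⟨K1, hK1, hn⟩ := near2 (h1 := fun _ => 0) (h2 := fun _ => 0) ha0 hD h01
    (show (0 : ℝ) < 1 / 2 by norm_num) (by norm_num)
  obtain ⟨K2, hK2, hf⟩ := pair (a1 := a1) ha0 hD
  refine ⟨2 * K1 + 2 * K2, by positivity, fun s t hs hst ht => ?_⟩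
  have hts : 0 < t - s := by linarith
  obtain ⟨M0, hM0⟩ := eventually_atTop.1 hev
  filter_upwards [hn s t hs hst ht, hf s t hs hst ht, eventually_ge_atTop M0, eventually_ge_atTop 1]
    with p g1 g2 g3 g4 q hpq
  have hp0 : (0 : ℝ) < p := by exact_mod_cast g4
  have hpqr : (p : ℝ) < q := by exact_mod_cast hpq
  have hq0 : (0 : ℝ) < q := hp0.trans hpqr
  have hpq1 : (p : ℝ) + 1 ≤ q := by exact_mod_cast hpq
  obtain ⟨y', y'', hy1⟩ := hM0 p g3
  obtain ⟨z', z'', hz1⟩ := hM0 q (g3.trans hpq.le)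
  have hbet : bet p q = 1 / ((p : ℝ) * q) := by unfold bet; rw [if_neg hpq.ne]
  rw [hbet]
  have hpos : 0 < 1 / ((p : ℝ) * q) := by positivity
  rcases le_or_gt q (2 * p) with h | h
  · have h5 := g1 q hpq.le h (y p) y' y'' (y q) z' z'' (hym p) hy1 hz1 (fun x hx => by
      have e1 := (abs_le.1 (hy1.slope x hx)).2
      have e2 := (abs_le.1 (hz1.slope x hx)).1
      linarith)
    refine h5.trans ?_
    have hqr : (q : ℝ) ≤ 2 * p := by exact_mod_cast h
    have e : (1 / (p : ℝ)) ^ 2 ≤ 2 * (1 / ((p : ℝ) * q)) := by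
      rw [div_pow, one_pow, mul_one_div, div_le_div_iff₀ (by positivity) (by positivity)]
      nlinarith
    calc K1 * (t - s) * (1 / (p : ℝ)) ^ 2 ≤ K1 * (t - s) * (2 * (1 / ((p : ℝ) * q))) := by gcongr
      _ = 2 * K1 * (t - s) * (1 / ((p : ℝ) * q)) := by ring
      _ ≤ _ := by
        gcongr
        linarith
  · have h5 := g2 q hpq (y p) y' (y q) z' (Loc_Lc hy1.loc) (Loc_Lc hz1.loc)
    refine h5.trans ?_
    have hqr : 2 * (p : ℝ) ≤ q := by exact_mod_cast h.le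
    have e : 1 / ((p : ℝ) * (q - p)) ≤ 2 * (1 / ((p : ℝ) * q)) := by
      have h6 : 0 < (q : ℝ) - p := by linarith
      rw [mul_one_div, div_le_div_iff₀ (by positivity) (by positivity)]
      nlinarith
    calc K2 * (t - s) * (1 / ((p : ℝ) * (q - p))) ≤ K2 * (t - s) * (2 * (1 / ((p : ℝ) * q))) := by gcongr
      _ = 2 * K2 * (t - s) * (1 / ((p : ℝ) * q)) := by ring
      _ ≤ _ := by
        gcongr
        linarith

/-- **The numbers `8 T_m(x) ^ 2 + 1`: almost everywhere infinitely many primes.** -/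
theorem c_inf {S : Set ℕ} (hS : ¬ Summable fun m : S => 1 / ((m : ℕ) : ℝ)) :
    ∀ᵐ t : ℝ, 0 < t → ∀ M : ℕ, ∃ m ∈ S, M ≤ m ∧
      (⌊8 * Pool.Agent.Q43.LC.TT (Real.cosh (t / 2)) m ^ 2 + 1⌋₊).Prime := by
  have hL : LF 0 (cy (fun _ => Real.log (2 * 1))) :=
    Pool.Agent.Q43.LC.LF_c (H' := fun _ => 0) (fun t _ => hasDerivAt_const t _) continuousOn_const
  have hm : ∀ m, Measurable (cy (fun _ => Real.log (2 * 1)) m) := fun m => by
    unfold cy
    fun_prop
  filter_upwards [ae_inf le_rfl hm hL (fun a0 a1 h0 _ => ⟨|Real.log (2 * 1)| + 4, by positivity,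
    cur_c _ h0⟩) hS] with t ht h0 M
  obtain ⟨m, h1, h2, h3⟩ := ht h0 M
  refine ⟨m, h1, h2, ?_⟩
  have hv := Pool.Agent.Q43.LC.val_c (α := fun _ => 1) (fun _ _ => one_pos) t h0 m
  rw [← hv.2, Real.exp_log hv.1, one_mul] at h3
  exact h3

end Pool.Agent.Q267.DV
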