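import Mathlib
import Pool.Agent.W66.CK
import Pool.Agent.Q267.DV.Fin

set_option autoImplicit false

/-!
# Infinitely many prime values almost everywhere: curve families with an amplitude
-/

namespace Pool.Agent.Q267.DV

open MeasureTheory Filter Topology Finset
open Pool.Agent.W66C
open Pool.Agent.Q43.LC (Lc LF)

lemma LF_of {c0 : ℝ} {h : ℝ → ℝ} {y : ℕ → ℝ → ℝ}
    (hcur : ∀ a0 a1 : ℝ, c0 < a0 → a0 < a1 → ∃ D : ℝ, 0 ≤ D ∧ ∀ᶠ m : ℕ in atTop, ∃ y' y'' : ℝ → ℝ,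
      Cur a0 a1 D h m (y m) y' y'') : LF c0 y := by
  refine ⟨fun m => deriv (y m), fun a0 a1 h0 h01 => ?_⟩
  obtain ⟨D, hD, hev⟩ := hcur a0 a1 h0 h01
  refine ⟨D, hD, ?_⟩
  filter_upwards [hev] with m hm
  obtain ⟨y', y'', hc⟩ := hm
  have hd : ∀ t ∈ Set.Icc a0 a1, deriv (y m) t = y' t := fun t ht => (hc.loc.der t ht).deriv
  exact ⟨hc.loc.near, fun t ht => by rw [hd t ht]; exact hc.loc.der t ht,
    fun t ht => by rw [hd t ht]; exact hc.loc.slope t ht⟩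

/-- **Curve families.** -/
theorem ae_inf2 {c0 : ℝ} (hc0 : 0 ≤ c0) {h : ℝ → ℝ} {y : ℕ → ℝ → ℝ} (hym : ∀ m, Measurable (y m))
    (hcur : ∀ a0 a1 : ℝ, c0 < a0 → a0 < a1 → ∃ D : ℝ, 0 ≤ D ∧ ∀ᶠ m : ℕ in atTop, ∃ y' y'' : ℝ → ℝ,
      Cur a0 a1 D h m (y m) y' y'')
    {S : Set ℕ} (hS : ¬ Summable fun m : S => 1 / ((m : ℕ) : ℝ)) :
    ∀ᵐ t : ℝ, c0 < t → ∀ M : ℕ, ∃ m ∈ S, M ≤ m ∧ (⌊Real.exp (y m t)⌋₊).Prime := by
  refine assemble hc0 hym (LF_of hcur) bet_symm bet_diag ?_ (B := 2) two_pos (late hS)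
  intro a0 a1 h0 h01
  have ha0 : 0 < a0 := by linarith
  obtain ⟨D, hD, hev⟩ := hcur a0 a1 h0 h01
  obtain ⟨K1, hK1, hn⟩ := near2 (h1 := h) (h2 := h) ha0 hD h01
    (show (0 : ℝ) < 1 / 2 by norm_num) (by norm_num)
  obtain ⟨K2, hK2, hf⟩ := pair (a1 := a1) ha0 hD
  refine ⟨2 * K1 + 2 * K2, by positivity, fun s t hs hst ht => ?_⟩
  have hts : 0 < t - s := by linarith
  obtain ⟨M0, hM0⟩ := eventually_atTop.1 hev
  filter_upwards [hn s t hs hst ht, hf s t hs hst ht, eventually_ge_atTop M0, eventually_ge_atTop 1]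
    with p g1 g2 g3 g4 q hpq
  have hp0 : (0 : ℝ) < p := by exact_mod_cast g4
  have hpqr : (p : ℝ) < q := by exact_mod_cast hpq
  have hq0 : (0 : ℝ) < q := hp0.trans hpqr
  have hpq1 : (p : ℝ) + 1 ≤ q := by exact_mod_cast hpq
  obtain ⟨y', y'', hy1⟩ := hM0 p g3
  obtain ⟨z', z'', hz1⟩ := hM0 q (g3.trans hpq.le)
  have hbet : bet p q = 1 / ((p : ℝ) * q) := by unfold bet; rw [if_neg hpq.ne]
  rw [hbet]
  have hpos : 0 < 1 / ((p : ℝ) * q) := by positivity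
  rcases le_or_gt q (2 * p) with hle | hlt
  · have h5 := g1 q hpq.le hle (y p) y' y'' (y q) z' z'' (hym p) hy1 hz1 (fun x hx => by
      have e1 := (abs_le.1 (hy1.slope x hx)).2
      have e2 := (abs_le.1 (hz1.slope x hx)).1
      linarith)
    refine h5.trans ?_
    have hqr : (q : ℝ) ≤ 2 * p := by exact_mod_cast hle
    have e : (1 / (p : ℝ)) ^ 2 ≤ 2 * (1 / ((p : ℝ) * q)) := by
      rw [div_pow, one_pow, mul_one_div, div_le_div_iff₀ (by positivity) (by positivity)]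
      nlinarith
    calc K1 * (t - s) * (1 / (p : ℝ)) ^ 2 ≤ K1 * (t - s) * (2 * (1 / ((p : ℝ) * q))) := by gcongr
      _ = 2 * K1 * (t - s) * (1 / ((p : ℝ) * q)) := by ring
      _ ≤ _ := by
        gcongr
        linarith
  · have h5 := g2 q hpq (y p) y' (y q) z' (Loc_Lc hy1.loc) (Loc_Lc hz1.loc)
    refine h5.trans ?_
    have hqr : 2 * (p : ℝ) ≤ q := by exact_mod_cast hlt.le
    have e : 1 / ((p : ℝ) * (q - p)) ≤ 2 * (1 / ((p : ℝ) * q)) := by
      have h6 : 0 < (q : ℝ) - p := by linarith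
      rw [mul_one_div, div_le_div_iff₀ (by positivity) (by positivity)]
      nlinarith
    calc K2 * (t - s) * (1 / ((p : ℝ) * (q - p))) ≤ K2 * (t - s) * (2 * (1 / ((p : ℝ) * q))) := by gcongr
      _ = 2 * K2 * (t - s) * (1 / ((p : ℝ) * q)) := by ring
      _ ≤ _ := by
        gcongr
        linarith

theorem val_inf {c0 : ℝ} (hc0 : 0 ≤ c0) {h : ℝ → ℝ} {y : ℕ → ℝ → ℝ} (hym : ∀ m, Measurable (y m))
    (hcur : ∀ a0 a1 : ℝ, c0 < a0 → a0 < a1 → ∃ D : ℝ, 0 ≤ D ∧ ∀ᶠ m : ℕ in atTop, ∃ y' y'' : ℝ → ℝ,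
      Cur a0 a1 D h m (y m) y' y'') {val : ℕ → ℝ → ℝ}
    (hval : ∀ t, c0 < t → ∀ᶠ m : ℕ in atTop, 0 < val m t ∧ Real.log (val m t) = y m t)
    {S : Set ℕ} (hS : ¬ Summable fun m : S => 1 / ((m : ℕ) : ℝ)) :
    ∀ᵐ t : ℝ, c0 < t → ∀ M : ℕ, ∃ m ∈ S, M ≤ m ∧ (⌊val m t⌋₊).Prime := by
  filter_upwards [ae_inf2 hc0 hym hcur hS] with t ht h0 M
  obtain ⟨M0, hM0⟩ := eventually_atTop.1 (hval t h0)
  obtain ⟨m, h1, h2, h3⟩ := ht h0 (max M M0)
  obtain ⟨h4, h5⟩ := hM0 m ((le_max_right _ _).trans h2)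
  refine ⟨m, h1, (le_max_left _ _).trans h2, ?_⟩
  rw [← h5, Real.exp_log h4] at h3
  exact h3

lemma Cur.mono_D {a0 a1 D D' : ℝ} {h : ℝ → ℝ} {m : ℕ} {y y' y'' : ℝ → ℝ}
    (hc : Cur a0 a1 D h m y y' y'') (hD : D ≤ D') : Cur a0 a1 D' h m y y' y'' :=
  ⟨⟨fun t ht => (hc.loc.near t ht).trans hD, hc.loc.der, fun t ht => (hc.loc.slope t ht).trans hD⟩,
    hc.der2, hc.cont2, hc.slope, fun t ht => (hc.curv t ht).trans hD⟩

/-- both parities -/
theorem hyp_inf {s0 s1 : ℝ} (hs0 : |s0| ≤ 1) (hs1 : |s1| ≤ 1) {H H' H'' : ℝ → ℝ} (hHm : Measurable H)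
    (hH : ∀ t, (0 : ℝ) < t → HasDerivAt H (H' t) t) (hH' : ∀ t, (0 : ℝ) < t → HasDerivAt H' (H'' t) t)
    (hH'' : ContinuousOn H'' (Set.Ioi 0)) {val : ℕ → ℝ → ℝ}
    (hval : ∀ t, 0 < t → ∀ᶠ m : ℕ in atTop, 0 < val m t ∧
      Real.log (val m t) = yy 2 0 (if Even m then s0 else s1) H m t)
    {S : Set ℕ} (hS : ¬ Summable fun m : S => 1 / ((m : ℕ) : ℝ)) :
    ∀ᵐ t : ℝ, 0 < t → ∀ M : ℕ, ∃ m ∈ S, M ≤ m ∧ (⌊val m t⌋₊).Prime := by
  refine val_inf (h := H') (y := fun m => yy 2 0 (if Even m then s0 else s1) H m) le_rfl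
    (fun m => measurable_yy _ _ _ hHm m) ?_ hval hS
  intro a0 a1 h0 h01
  obtain ⟨D0, hD0, hev0⟩ := fam_cur (m1 := 2) (m0 := 0) (s := s0) (c0 := 0) two_pos hs0 (by simp) hH hH'
    hH'' a0 a1 h0 h01
  obtain ⟨D1, hD1, hev1⟩ := fam_cur (m1 := 2) (m0 := 0) (s := s1) (c0 := 0) two_pos hs1 (by simp) hH hH'
    hH'' a0 a1 h0 h01
  refine ⟨max D0 D1, le_max_of_le_left hD0, ?_⟩
  filter_upwards [hev0, hev1] with m g0 g1
  by_cases hm : Even m
  · refine ⟨yy1 2 0 s0 H' m, yy2 2 0 s0 H'' m, ?_⟩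
    simp only [if_pos hm]
    exact Cur.mono_D g0 (le_max_left _ _)
  · refine ⟨yy1 2 0 s1 H' m, yy2 2 0 s1 H'' m, ?_⟩
    simp only [if_neg hm]
    exact Cur.mono_D g1 (le_max_right _ _)

lemma neg_exp_pow (t : ℝ) (m : ℕ) :
    (-Real.exp (-t)) ^ m = (if Even m then 1 else -1) * Real.exp (-(m * t)) := by
  have e : Real.exp (-t) ^ m = Real.exp (-(m * t)) := by
    rw [← Real.exp_nat_mul]; congr 1; ring
  by_cases hm : Even m
  · rw [if_pos hm, hm.neg_pow, e, one_mul]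
  · rw [if_neg hm, (Nat.not_even_iff_odd.1 hm).neg_pow, e]; ring

lemma fac {s : ℝ} (hs : |s| ≤ 1) {t : ℝ} (ht : 0 < t) {m : ℕ} (hm : 1 ≤ m) :
    0 < 1 + s * Real.exp (-(m * (2 * t - 0))) ∧
      Real.exp (m * t) * (1 + s * Real.exp (-(m * (2 * t - 0)))) =
        Real.exp (m * t) + s * Real.exp (-(m * t)) := by
  have hm0 : (0 : ℝ) < m := by exact_mod_cast hm
  have h2 : Real.exp (-(m * (2 * t - 0))) < 1 := by
    rw [Real.exp_lt_one_iff]
    have : 0 < (m : ℝ) * (2 * t - 0) := by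
      rw [sub_zero]; positivity
    linarith
  have h3 := Real.exp_pos (-(m * (2 * t - 0)))
  constructor
  · have h4 := (abs_le.1 hs).1
    nlinarith
  · rw [mul_add, mul_one, mul_left_comm, ← Real.exp_add]
    congr 3
    ring

theorem U_inf {A : ℝ → ℝ} (hA : ContDiffOn ℝ 2 A (Set.Ioi 0)) (hApos : ∀ x, 0 < x → 0 < A x)
    {S : Set ℕ} (hS : ¬ Summable fun m : S => 1 / ((m : ℕ) : ℝ)) :
    ∀ᵐ x : ℝ, 0 < x → ∀ M : ℕ, ∃ m ∈ S, M ≤ m ∧ (⌊A x * lU x m⌋₊).Prime := by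
  have hne : ∀ t : ℝ, 2 * Real.cosh t ≠ 0 := fun t => by have := Real.cosh_pos t; positivity
  obtain ⟨H, H', H'', hHm, hHe, hH1, hH2, hH3⟩ := amp (c0 := 0) hA hApos
    (g := fun t => 2 * Real.sinh t) (g' := fun t => 2 * Real.cosh t) (g'' := fun t => 2 * Real.sinh t)
    (by fun_prop) (fun t => (Real.hasDerivAt_sinh t).const_mul 2)
    (fun t => (Real.hasDerivAt_cosh t).const_mul 2) (by fun_prop) (fun t ht => sinh_pos' ht)
  have h := hyp_inf (s0 := -1) (s1 := 1) (by simp) (by simp)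
    (H := fun t => H t - Real.log (2 * Real.cosh t))
    (H' := fun t => H' t - (2 * Real.sinh t / (2 * Real.cosh t)))
    (H'' := fun t => H'' t - ((2 * Real.cosh t * (2 * Real.cosh t) - 2 * Real.sinh t * (2 * Real.sinh t)) /
      (2 * Real.cosh t) ^ 2)) (by fun_prop)
    (fun t ht => (hH1 t ht).sub (((Real.hasDerivAt_cosh t).const_mul 2).log (hne t)))
    (fun t ht => (hH2 t ht).sub (((Real.hasDerivAt_sinh t).const_mul 2).div
      ((Real.hasDerivAt_cosh t).const_mul 2) (hne t)))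
    (hH3.sub (ContinuousOn.div (by fun_prop) (by fun_prop)
      fun t _ => pow_ne_zero 2 (hne t))) (val := fun p t => A (2 * Real.sinh t) * lU (2 * Real.sinh t) p)
    (by
      intro t ht
      filter_upwards [eventually_ge_atTop 1] with m hm
      have hs : |(if Even m then (-1 : ℝ) else 1)| ≤ 1 := by split_ifs <;> simp
      obtain ⟨f1, f2⟩ := fac hs ht hm
      have hcl := lU_closed t m
      rw [neg_exp_pow, ← Real.exp_nat_mul] at hcl
      have hc : 0 < 2 * Real.cosh t := by have := Real.cosh_pos t; positivity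
      have e0 : Real.exp (m * t) - (if Even m then (1 : ℝ) else -1) * Real.exp (-(m * t)) =
          Real.exp (m * t) + (if Even m then (-1 : ℝ) else 1) * Real.exp (-(m * t)) := by
        split_ifs <;> ring
      rw [e0, ← f2] at hcl
      have e1 : lU (2 * Real.sinh t) m = Real.exp (m * t) *
          (1 + (if Even m then (-1 : ℝ) else 1) * Real.exp (-(m * (2 * t - 0)))) / (2 * Real.cosh t) := by
        rw [← hcl]; field_simp
      have h2 : 0 < Real.exp (m * t) *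
          (1 + (if Even m then (-1 : ℝ) else 1) * Real.exp (-(m * (2 * t - 0)))) :=
        mul_pos (Real.exp_pos _) f1
      have hAp := hApos _ (sinh_pos' ht)
      have h3 : 0 < lU (2 * Real.sinh t) m := by rw [e1]; exact div_pos h2 hc
      refine ⟨mul_pos hAp h3, ?_⟩
      unfold yy
      rw [Real.log_mul hAp.ne' h3.ne', e1, Real.log_div h2.ne' hc.ne',
        Real.log_mul (Real.exp_pos _).ne' f1.ne', Real.log_exp]
      beta_reduce
      rw [hHe t ht]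
      ring) hS
  have h' := ae_of_sinh (Q := fun x => 0 < x → ∀ M : ℕ, ∃ m ∈ S, M ≤ m ∧ (⌊A x * lU x m⌋₊).Prime) (by
    filter_upwards [h] with t ht h0
    have : 0 < t := by
      by_contra hcon
      push Not at hcon
      have h1 : Real.sinh t ≤ 0 := Real.sinh_nonpos_iff.2 hcon
      linarith
    exact ht this)
  exact h'

theorem V_inf {A : ℝ → ℝ} (hA : ContDiffOn ℝ 2 A (Set.Ioi 0)) (hApos : ∀ x, 0 < x → 0 < A x)
    {S : Set ℕ} (hS : ¬ Summable fun m : S => 1 / ((m : ℕ) : ℝ)) :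
    ∀ᵐ x : ℝ, 0 < x → ∀ M : ℕ, ∃ m ∈ S, M ≤ m ∧ (⌊A x * lV x m⌋₊).Prime := by
  obtain ⟨H, H', H'', hHm, hHe, hH1, hH2, hH3⟩ := amp (c0 := 0) hA hApos
    (g := fun t => 2 * Real.sinh t) (g' := fun t => 2 * Real.cosh t) (g'' := fun t => 2 * Real.sinh t)
    (by fun_prop) (fun t => (Real.hasDerivAt_sinh t).const_mul 2)
    (fun t => (Real.hasDerivAt_cosh t).const_mul 2) (by fun_prop) (fun t ht => sinh_pos' ht)
  have h := hyp_inf (s0 := 1) (s1 := -1) (by simp) (by simp) hHm hH1 hH2 hH3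
    (val := fun p t => A (2 * Real.sinh t) * lV (2 * Real.sinh t) p)
    (by
      intro t ht
      filter_upwards [eventually_ge_atTop 1] with m hm
      have hs : |(if Even m then (1 : ℝ) else -1)| ≤ 1 := by split_ifs <;> simp
      obtain ⟨f1, f2⟩ := fac hs ht hm
      have hcl := lV_closed t m
      rw [neg_exp_pow, ← Real.exp_nat_mul, ← f2] at hcl
      have h2 : 0 < Real.exp (m * t) *
          (1 + (if Even m then (1 : ℝ) else -1) * Real.exp (-(m * (2 * t - 0)))) :=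
        mul_pos (Real.exp_pos _) f1
      have hAp := hApos _ (sinh_pos' ht)
      rw [hcl]
      refine ⟨mul_pos hAp h2, ?_⟩
      unfold yy
      rw [Real.log_mul hAp.ne' h2.ne', Real.log_mul (Real.exp_pos _).ne' f1.ne', Real.log_exp, hHe t ht]
      ring) hS
  have h' := ae_of_sinh (Q := fun x => 0 < x → ∀ M : ℕ, ∃ m ∈ S, M ≤ m ∧ (⌊A x * lV x m⌋₊).Prime) (by
    filter_upwards [h] with t ht h0
    have : 0 < t := by
      by_contra hcon
      push Not at hcon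
      have h1 : Real.sinh t ≤ 0 := Real.sinh_nonpos_iff.2 hcon
      linarith
    exact ht this)
  exact h'

end Pool.Agent.Q267.DV
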