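import Mathlib
import Pool.Agent.Q43.LC.HypAe
import Pool.Agent.Q267.DV.Fin2

set_option autoImplicit false

/-!
# The numbers `A x * (x ^ m - c ^ m)`
-/

namespace Pool.Agent.Q267.DV

open MeasureTheory Filter Topology Finset
open Pool.Agent.W66C
open Pool.Agent.Q43.LC (Lc LF)
open Pool.Agent.W66X (ae_of_exp')

/-- the signs -/
noncomputable def sgc (c : ℝ) (m : ℕ) : ℝ :=
  if Even m then -|(SignType.sign c : ℝ)| else -(SignType.sign c : ℝ)

lemma sign_le (c : ℝ) : |(SignType.sign c : ℝ)| ≤ 1 := by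
  rcases lt_trichotomy c 0 with h | h | h
  · rw [sign_neg h]; simp
  · rw [h]; simp
  · rw [sign_pos h]; simp

lemma sgc_mul (c : ℝ) {m : ℕ} (hm : 1 ≤ m) : sgc c m * |c| ^ m = -c ^ m := by
  have hm0 : m ≠ 0 := by omega
  unfold sgc
  rcases lt_trichotomy c 0 with h | h | h
  · rw [sign_neg h, abs_of_neg h]
    by_cases he : Even m
    · rw [if_pos he, he.neg_pow]; simp
    · rw [if_neg he, (Nat.not_even_iff_odd.1 he).neg_pow]; simp
  · rw [h]; simp [hm0]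
  · rw [sign_pos h, abs_of_pos h]
    split_ifs <;> simp

/-- the family of `A x * (x ^ m - c ^ m)`, `x = exp t` -/
lemma pow_fam (c : ℝ) {A : ℝ → ℝ} (hA : ContDiffOn ℝ 2 A (Set.Ioi (max 1 |c|)))
    (hApos : ∀ x, max 1 |c| < x → 0 < A x) :
    ∃ (h : ℝ → ℝ) (y : ℕ → ℝ → ℝ), (∀ m, Measurable (y m)) ∧
      (∀ a0 a1 : ℝ, Real.log (max 1 |c|) < a0 → a0 < a1 → ∃ D : ℝ, 0 ≤ D ∧ ∀ᶠ m : ℕ in atTop,
        ∃ y' y'' : ℝ → ℝ, Cur a0 a1 D h m (y m) y' y'') ∧
      ∀ t, Real.log (max 1 |c|) < t → ∀ᶠ m : ℕ in atTop,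
        0 < A (Real.exp t) * ((Real.exp t) ^ m - c ^ m) ∧
          Real.log (A (Real.exp t) * ((Real.exp t) ^ m - c ^ m)) = y m t := by
  set c0 := Real.log (max 1 |c|) with hc0d
  have hmax : (1 : ℝ) ≤ max 1 |c| := le_max_left _ _
  have hmax0 : (0 : ℝ) < max 1 |c| := by linarith
  have hmc : Real.log |c| ≤ 1 * c0 := by
    rw [one_mul, hc0d]
    rcases (abs_nonneg c).eq_or_lt with h | h
    · rw [← h, Real.log_zero]
      exact Real.log_nonneg (le_max_left _ _)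
    · exact Real.log_le_log h (le_max_right _ _)
  have hexp : ∀ t, c0 < t → max 1 |c| < Real.exp t := fun t ht => (Real.log_lt_iff_lt_exp hmax0).1 ht
  obtain ⟨H, H', H'', hHm, hHe, hH1, hH2, hH3⟩ := amp (c0 := c0) hA hApos (g := Real.exp)
    (g' := Real.exp) (g'' := Real.exp) Real.measurable_exp Real.hasDerivAt_exp Real.hasDerivAt_exp
    Real.continuous_exp hexp
  refine ⟨H', fun m => yy 1 (Real.log |c|) (sgc c m) H m, fun m => measurable_yy _ _ _ hHm m, ?_, ?_⟩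
  · intro a0 a1 h0 h01
    obtain ⟨D0, hD0, hev0⟩ := fam_cur (m1 := 1) (m0 := Real.log |c|)
      (s := -|(SignType.sign c : ℝ)|) (c0 := c0) one_pos
      (by rw [abs_neg, abs_abs]; exact sign_le c) hmc hH1 hH2 hH3 a0 a1 h0 h01
    obtain ⟨D1, hD1, hev1⟩ := fam_cur (m1 := 1) (m0 := Real.log |c|)
      (s := -(SignType.sign c : ℝ)) (c0 := c0) one_pos
      (by rw [abs_neg]; exact sign_le c) hmc hH1 hH2 hH3 a0 a1 h0 h01
    refine ⟨max D0 D1, le_max_of_le_left hD0, ?_⟩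
    filter_upwards [hev0, hev1] with m g0 g1
    by_cases hm : Even m
    · refine ⟨yy1 1 (Real.log |c|) (-|(SignType.sign c : ℝ)|) H' m,
        yy2 1 (Real.log |c|) (-|(SignType.sign c : ℝ)|) H'' m, ?_⟩
      simp only [sgc, if_pos hm]
      exact Cur.mono_D g0 (le_max_left _ _)
    · refine ⟨yy1 1 (Real.log |c|) (-(SignType.sign c : ℝ)) H' m,
        yy2 1 (Real.log |c|) (-(SignType.sign c : ℝ)) H'' m, ?_⟩
      simp only [sgc, if_neg hm]
      exact Cur.mono_D g1 (le_max_right _ _)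
  · intro t ht
    filter_upwards [eventually_ge_atTop 1] with p hp
    have h1 := hexp t ht
    have h2 : |c| < Real.exp t := (le_max_right _ _).trans_lt h1
    have h3 : |c ^ p| < (Real.exp t) ^ p := by
      rw [abs_pow]
      exact pow_lt_pow_left₀ h2 (abs_nonneg _) (by omega)
    have h4 : 0 < (Real.exp t) ^ p - c ^ p := by
      have := le_abs_self (c ^ p)
      linarith
    have hE : 0 < Real.exp t ^ p := by positivity
    have hAp := hApos _ h1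
    refine ⟨mul_pos hAp h4, ?_⟩
    rw [Real.log_mul hAp.ne' h4.ne']
    have e1 : sgc c p * Real.exp (-(p * (1 * t - Real.log |c|))) = -(c ^ p / (Real.exp t) ^ p) := by
      rcases (abs_nonneg c).eq_or_lt with h | h
      · have hc : c = 0 := abs_eq_zero.1 h.symm
        have hp0 : p ≠ 0 := by omega
        unfold sgc
        rw [hc]
        simp [hp0]
      · have e2 : Real.exp (-(p * (1 * t - Real.log |c|))) = |c| ^ p / (Real.exp t) ^ p := by
          have e3 : -((p : ℝ) * (1 * t - Real.log |c|)) = (p : ℝ) * Real.log |c| - p * t := by ring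
          rw [e3, Real.exp_sub, Real.exp_nat_mul, Real.exp_nat_mul, Real.exp_log h]
        rw [e2, ← mul_div_assoc, sgc_mul c hp, neg_div]
    have e5 : (Real.exp t) ^ p - c ^ p = (Real.exp t) ^ p * (1 + -(c ^ p / (Real.exp t) ^ p)) := by
      field_simp
      ring
    have h6 : 0 < 1 + -(c ^ p / (Real.exp t) ^ p) := by
      have : c ^ p / (Real.exp t) ^ p < 1 := by
        rw [div_lt_one hE]
        have := le_abs_self (c ^ p)
        linarith
      linarith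
    unfold yy
    rw [e1, e5, Real.log_mul hE.ne' h6.ne', ← Real.exp_nat_mul, Real.log_exp, hHe t ht]
    ring

lemma log_max_nonneg (c : ℝ) : 0 ≤ Real.log (max 1 |c|) := Real.log_nonneg (le_max_left _ _)

theorem pow_inf (c : ℝ) {A : ℝ → ℝ} (hA : ContDiffOn ℝ 2 A (Set.Ioi (max 1 |c|)))
    (hApos : ∀ x, max 1 |c| < x → 0 < A x) {S : Set ℕ}
    (hS : ¬ Summable fun m : S => 1 / ((m : ℕ) : ℝ)) :
    ∀ᵐ x : ℝ, max 1 |c| < x → ∀ M : ℕ, ∃ m ∈ S, M ≤ m ∧ (⌊A x * (x ^ m - c ^ m)⌋₊).Prime := by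
  obtain ⟨h, y, h1, h2, h3⟩ := pow_fam c hA hApos
  have h4 := val_inf (log_max_nonneg c) h1 h2 h3 hS
  have h5 := ae_of_exp' (P := fun x : ℝ => max 1 |c| < x →
    ∀ M : ℕ, ∃ m ∈ S, M ≤ m ∧ (⌊A x * (x ^ m - c ^ m)⌋₊).Prime) (by
    filter_upwards [h4] with t ht hx
    exact ht ((Real.log_lt_iff_lt_exp (by have := le_max_left 1 |c|; linarith)).2 hx))
  filter_upwards [h5] with x hx h6
  exact hx (by have := le_max_left 1 |c|; linarith) h6

theorem pow_fin (c : ℝ) {A : ℝ → ℝ} (hA : ContDiffOn ℝ 2 A (Set.Ioi (max 1 |c|)))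
    (hApos : ∀ x, max 1 |c| < x → 0 < A x) {S : Set ℕ}
    (hS : Summable fun m : S => 1 / ((m : ℕ) : ℝ)) :
    ∀ᵐ x : ℝ, max 1 |c| < x → ∃ M : ℕ, ∀ m ∈ S, M ≤ m → ¬ (⌊A x * (x ^ m - c ^ m)⌋₊).Prime := by
  obtain ⟨h, y, h1, h2, h3⟩ := pow_fam c hA hApos
  have h4 := Pool.Agent.Q43.LC.ae_val (v := fun m t => A (Real.exp t) * ((Real.exp t) ^ m - c ^ m))
    (log_max_nonneg c) (LF_of h2) h3 hS
  have h5 := ae_of_exp' (P := fun x : ℝ => max 1 |c| < x →
    ∃ M : ℕ, ∀ m ∈ S, M ≤ m → ¬ (⌊A x * (x ^ m - c ^ m)⌋₊).Prime) (by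
    filter_upwards [h4] with t ht hx
    exact ht ((Real.log_lt_iff_lt_exp (by have := le_max_left 1 |c|; linarith)).2 hx))
  filter_upwards [h5] with x hx h6
  exact hx (by have := le_max_left 1 |c|; linarith) h6

lemma inf_of {S : Set ℕ} {v : ℕ → ℝ} (h : ∀ M : ℕ, ∃ m ∈ S, M ≤ m ∧ (⌊v m⌋₊).Prime) :
    {m : ℕ | m ∈ S ∧ (⌊v m⌋₊).Prime}.Infinite := by
  refine Set.infinite_of_forall_exists_gt fun M => ?_
  obtain ⟨m, h2, h3, h4⟩ := h (M + 1)
  exact ⟨m, ⟨h2, h4⟩, by omega⟩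

lemma fin_of {S : Set ℕ} {v : ℕ → ℝ} (h : ∃ M : ℕ, ∀ m ∈ S, M ≤ m → ¬ (⌊v m⌋₊).Prime) :
    {m : ℕ | m ∈ S ∧ (⌊v m⌋₊).Prime}.Finite := by
  obtain ⟨M, hM⟩ := h
  refine (Set.finite_lt_nat M).subset ?_
  rintro m ⟨h2, h3⟩
  by_contra hcon
  exact hM m h2 (not_lt.1 hcon) h3

end Pool.Agent.Q267.DV
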