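import Mathlib
import Pool.Agent.Q43.LC.HypAe
import Pool.Agent.Q267.DV.Fin3

set_option autoImplicit false

/-!
# The dichotomy for the Pell polynomials and their companions
-/

namespace Pool.Agent.Q267.DV

open MeasureTheory

lemma ae_two {Q : ℝ → Prop} (h : ∀ᵐ x : ℝ, Q x) : ∀ᵐ y : ℝ, Q (2 * y) := by
  rw [ae_iff] at h ⊢
  have h1 : volume ((fun x : ℝ => x / 2) '' {x : ℝ | ¬ Q x}) = 0 :=
    addHaar_image_eq_zero_of_differentiableOn_of_addHaar_eq_zero volume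
      (differentiable_id.div_const 2).differentiableOn h
  refine measure_mono_null ?_ h1
  intro y hy
  exact ⟨2 * y, hy, by ring⟩

lemma fam_eqU (x : ℝ) (n : ℕ) : Pool.Agent.W66C.lU x n = Pool.Agent.Q43.LC.FF x n := by
  induction n using Nat.twoStepInduction with
  | zero => rfl
  | one => rfl
  | more n h1 h2 =>
    show x * Pool.Agent.W66C.lU x (n + 1) + Pool.Agent.W66C.lU x n = _
    rw [h1, h2]
    rfl

lemma fam_eqV (x : ℝ) (n : ℕ) : Pool.Agent.W66C.lV x n = Pool.Agent.Q43.LC.LL x n := by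
  induction n using Nat.twoStepInduction with
  | zero => rfl
  | one => rfl
  | more n h1 h2 =>
    show x * Pool.Agent.W66C.lV x (n + 1) + Pool.Agent.W66C.lV x n = _
    rw [h1, h2]
    rfl

theorem UV_fin {A : ℝ → ℝ} (hA : ContDiffOn ℝ 2 A (Set.Ioi 0)) (hA0 : ∀ x, 0 < x → 0 < A x)
    {S : Set ℕ} (hS : Summable fun m : S => 1 / ((m : ℕ) : ℝ)) :
    ∀ᵐ x : ℝ, 0 < x → ∃ M : ℕ, ∀ m ∈ S, M ≤ m →
      ¬ (⌊A x * Pool.Agent.W66C.lU x m⌋₊).Prime ∧ ¬ (⌊A x * Pool.Agent.W66C.lV x m⌋₊).Prime := by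
  have hA1 : ContDiffOn ℝ 1 A (Set.Ioi 0) := hA.of_le (by norm_num)
  simp only [fam_eqU, fam_eqV]
  exact Pool.Agent.Q43.LC.ae_sinh two_pos
    (Q := fun x => ∃ M : ℕ, ∀ m ∈ S, M ≤ m → ¬ (⌊A x * Pool.Agent.Q43.LC.FF x m⌋₊).Prime ∧
      ¬ (⌊A x * Pool.Agent.Q43.LC.LL x m⌋₊).Prime)
    (Pool.Agent.Q43.LC.hyp_ae (Pool.Agent.Q43.LC.logC1_of hA1 hA0 two_pos)
      (Pool.Agent.Q43.LC.logC1_of hA1 hA0 two_pos) hS)

lemma half_diff {A : ℝ → ℝ} (hA : ContDiffOn ℝ 2 A (Set.Ioi 0)) :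
    ContDiffOn ℝ 2 (fun x : ℝ => A (x / 2)) (Set.Ioi 0) :=
  hA.comp (contDiff_id.div_const 2).contDiffOn fun x hx => by
    show 0 < x / 2
    exact half_pos hx

/-- the Pell polynomials -/
theorem pellU {A : ℝ → ℝ} (hA : ContDiffOn ℝ 2 A (Set.Ioi 0)) (hA0 : ∀ x, 0 < x → 0 < A x) (S : Set ℕ) :
    ((¬ Summable fun m : S => 1 / ((m : ℕ) : ℝ)) → ∀ᵐ y : ℝ, 0 < y →
      {m : ℕ | m ∈ S ∧ (⌊A y * Pool.Agent.W66C.lU (2 * y) m⌋₊).Prime}.Infinite) ∧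
    ((Summable fun m : S => 1 / ((m : ℕ) : ℝ)) → ∀ᵐ y : ℝ, 0 < y →
      {m : ℕ | m ∈ S ∧ (⌊A y * Pool.Agent.W66C.lU (2 * y) m⌋₊).Prime}.Finite) := by
  have e0 : ∀ y : ℝ, 2 * y / 2 = y := fun y => by ring
  constructor
  · intro hS
    filter_upwards [ae_two (U_inf (half_diff hA) (fun x hx => hA0 _ (half_pos hx)) hS)] with y h1 hy
    have h2 := inf_of (h1 (by linarith))
    simp only [e0] at h2
    exact h2
  · intro hS
    filter_upwards [ae_two (UV_fin (half_diff hA) (fun x hx => hA0 _ (half_pos hx)) hS)] with y h1 hy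
    obtain ⟨M, hM⟩ := h1 (by linarith)
    have h2 := fin_of (S := S) (v := fun m => A (2 * y / 2) * Pool.Agent.W66C.lU (2 * y) m)
      ⟨M, fun m hm hge => (hM m hm hge).1⟩
    simp only [e0] at h2
    exact h2

/-- their companions -/
theorem pellV {A : ℝ → ℝ} (hA : ContDiffOn ℝ 2 A (Set.Ioi 0)) (hA0 : ∀ x, 0 < x → 0 < A x) (S : Set ℕ) :
    ((¬ Summable fun m : S => 1 / ((m : ℕ) : ℝ)) → ∀ᵐ y : ℝ, 0 < y →
      {m : ℕ | m ∈ S ∧ (⌊A y * Pool.Agent.W66C.lV (2 * y) m⌋₊).Prime}.Infinite) ∧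
    ((Summable fun m : S => 1 / ((m : ℕ) : ℝ)) → ∀ᵐ y : ℝ, 0 < y →
      {m : ℕ | m ∈ S ∧ (⌊A y * Pool.Agent.W66C.lV (2 * y) m⌋₊).Prime}.Finite) := by
  have e0 : ∀ y : ℝ, 2 * y / 2 = y := fun y => by ring
  constructor
  · intro hS
    filter_upwards [ae_two (V_inf (half_diff hA) (fun x hx => hA0 _ (half_pos hx)) hS)] with y h1 hy
    have h2 := inf_of (h1 (by linarith))
    simp only [e0] at h2
    exact h2
  · intro hS
    filter_upwards [ae_two (UV_fin (half_diff hA) (fun x hx => hA0 _ (half_pos hx)) hS)] with y h1 hy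
    obtain ⟨M, hM⟩ := h1 (by linarith)
    have h2 := fin_of (S := S) (v := fun m => A (2 * y / 2) * Pool.Agent.W66C.lV (2 * y) m)
      ⟨M, fun m hm hge => (hM m hm hge).2⟩
    simp only [e0] at h2
    exact h2

end Pool.Agent.Q267.DV
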