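import Mathlib
import Pool.Agent.Q267.DV.Fin2

set_option autoImplicit false

/-!
# Pairs of prime indices
-/

namespace Pool.Agent.Q267.DV

open MeasureTheory Filter Topology Finset
open Pool.Agent.W66C
open Pool.Agent.Q43.LC (Lc LF windows)
open scoped ENNReal

/-- the pair bound -/
theorem pair_bound {a0 a1 D : ℝ} (ha0 : 0 < a0) (h01 : a0 < a1) (hD : 0 ≤ D) {h : ℝ → ℝ}
    {y : ℕ → ℝ → ℝ} (hym : ∀ m, Measurable (y m))
    (hev : ∀ᶠ m : ℕ in atTop, ∃ y' y'' : ℝ → ℝ, Cur a0 a1 D h m (y m) y' y'') :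
    ∃ K : ℝ, 0 < K ∧ ∀ s t : ℝ, a0 < s → s < t → t < a1 →
      ∀ᶠ p : ℕ in atTop, ∀ q : ℕ, p < q →
        volume.real ({x | (⌊Real.exp (y p x)⌋₊).Prime} ∩ {x | (⌊Real.exp (y q x)⌋₊).Prime} ∩
          Set.Ioc s t) ≤ K * (t - s) * (1 / ((p : ℝ) * q)) := by
  obtain ⟨K1, hK1, hn⟩ := near2 (h1 := h) (h2 := h) ha0 hD h01
    (show (0 : ℝ) < 1 / 2 by norm_num) (by norm_num)
  obtain ⟨K2, hK2, hf⟩ := pair (a1 := a1) ha0 hD
  refine ⟨2 * K1 + 2 * K2, by positivity, fun s t hs hst ht => ?_⟩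
  have hts : 0 < t - s := by linarith
  obtain ⟨M0, hM0⟩ := eventually_atTop.1 hev
  filter_upwards [hn s t hs hst ht, hf s t hs hst ht, eventually_ge_atTop M0, eventually_ge_atTop 1]
    with p g1 g2 g3 g4 q hpq
  have hp0 : (0 : ℝ) < p := by exact_mod_cast g4
  have hpqr : (p : ℝ) < q := by exact_mod_cast hpq
  have hq0 : (0 : ℝ) < q := hp0.trans hpqr
  have hpq1 : (p : ℝ) + 1 ≤ q := by exact_mod_cast hpq
  obtain ⟨y', y'', hy1⟩ := hM0 p g3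
  obtain ⟨z', z'', hz1⟩ := hM0 q (g3.trans hpq.le)
  have hpos : 0 < 1 / ((p : ℝ) * q) := by positivity
  rcases le_or_gt q (2 * p) with hle | hlt
  · have h5 := g1 q hpq.le hle (y p) y' y'' (y q) z' z'' (hym p) hy1 hz1 (fun x hx => by
      have e1 := (abs_le.1 (hy1.slope x hx)).2
      have e2 := (abs_le.1 (hz1.slope x hx)).1
      linarith)
    refine h5.trans ?_
    have hqr : (q : ℝ) ≤ 2 * p := by exact_mod_cast hle
    have e : (1 / (p : ℝ)) ^ 2 ≤ 2 * (1 / ((p : ℝ) * q)) := by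
      rw [div_pow, one_pow, mul_one_div, div_le_div_iff₀ (by positivity) (by positivity)]
      nlinarith
    calc K1 * (t - s) * (1 / (p : ℝ)) ^ 2 ≤ K1 * (t - s) * (2 * (1 / ((p : ℝ) * q))) := by gcongr
      _ = 2 * K1 * (t - s) * (1 / ((p : ℝ) * q)) := by ring
      _ ≤ _ := by
        gcongr
        linarith
  · have h5 := g2 q hpq (y p) y' (y q) z' (Loc_Lc hy1.loc) (Loc_Lc hz1.loc)
    refine h5.trans ?_
    have hqr : 2 * (p : ℝ) ≤ q := by exact_mod_cast hlt.le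
    have e : 1 / ((p : ℝ) * (q - p)) ≤ 2 * (1 / ((p : ℝ) * q)) := by
      have h6 : 0 < (q : ℝ) - p := by linarith
      rw [mul_one_div, div_le_div_iff₀ (by positivity) (by positivity)]
      nlinarith
    calc K2 * (t - s) * (1 / ((p : ℝ) * (q - p))) ≤ K2 * (t - s) * (2 * (1 / ((p : ℝ) * q))) := by gcongr
      _ = 2 * K2 * (t - s) * (1 / ((p : ℝ) * q)) := by ring
      _ ≤ _ := by
        gcongr
        linarith

/-- **Pairs of prime indices in a sparse set of pairs.** -/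
theorem ae_rep {c0 : ℝ} (hc0 : 0 ≤ c0) {h : ℝ → ℝ} {y : ℕ → ℝ → ℝ} (hym : ∀ m, Measurable (y m))
    (hcur : ∀ a0 a1 : ℝ, c0 < a0 → a0 < a1 → ∃ D : ℝ, 0 ≤ D ∧ ∀ᶠ m : ℕ in atTop, ∃ y' y'' : ℝ → ℝ,
      Cur a0 a1 D h m (y m) y' y'')
    {R : Set (ℕ × ℕ)} (hR : ∀ r ∈ R, 1 ≤ r.1 ∧ r.1 < r.2)
    (hs : Summable fun r : R => 1 / (((r : ℕ × ℕ).1 : ℝ) * ((r : ℕ × ℕ).2 : ℝ))) :
    ∀ᵐ t : ℝ, c0 < t → {r : ℕ × ℕ | r ∈ R ∧ (⌊Real.exp (y r.1 t)⌋₊).Prime ∧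
      (⌊Real.exp (y r.2 t)⌋₊).Prime}.Finite := by
  refine windows fun a0 a1 h0 h01 => ?_
  obtain ⟨A, hA0, hA1⟩ : ∃ A : ℝ, c0 < A ∧ A < a0 := ⟨(c0 + a0) / 2, by linarith, by linarith⟩
  have hA : 0 < A := by linarith
  have hAB : A < a1 + 1 := by linarith
  obtain ⟨D, hD, hev⟩ := hcur A (a1 + 1) hA0 hAB
  obtain ⟨K, hK, hpair⟩ := pair_bound hA hAB hD hym hev
  obtain ⟨s, hs1, hs2⟩ : ∃ s : ℝ, A < s ∧ s < a0 := ⟨(A + a0) / 2, by linarith, by linarith⟩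
  obtain ⟨t, ht1, ht2⟩ : ∃ t : ℝ, a1 < t ∧ t < a1 + 1 := ⟨a1 + 1 / 2, by linarith, by linarith⟩
  have hst : s < t := by linarith
  have hts : 0 < t - s := by linarith
  obtain ⟨M1, hM1⟩ := eventually_atTop.1 (hpair s t hs1 hst ht2)
  obtain ⟨M2, hM2⟩ := eventually_atTop.1 ((upper hA hD hs1 hst ht2).and hev)
  obtain ⟨M, hM⟩ : ∃ M : ℕ, M = max M1 M2 := ⟨_, rfl⟩
  set E : ℕ → Set ℝ := fun m => {x | (⌊Real.exp (y m x)⌋₊).Prime} with hE
  obtain ⟨K2, hK2⟩ : ∃ K2 : ℝ, K2 = K * (t - s) + 6 / A * (t - s) * M := ⟨_, rfl⟩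
  have hK20 : 0 < K2 := by rw [hK2]; positivity
  have hbd : ∀ r : R, volume {x | M ≤ (r : ℕ × ℕ).2 ∧ x ∈ E (r : ℕ × ℕ).1 ∩ E (r : ℕ × ℕ).2 ∩ Set.Ioc s t} ≤
      ENNReal.ofReal (K2 * (1 / (((r : ℕ × ℕ).1 : ℝ) * ((r : ℕ × ℕ).2 : ℝ)))) := by
    rintro ⟨⟨p, q⟩, hrR⟩
    obtain ⟨hp1, hpq⟩ := hR _ hrR
    show volume {x | M ≤ q ∧ x ∈ E p ∩ E q ∩ Set.Ioc s t} ≤ ENNReal.ofReal (K2 * (1 / ((p : ℝ) * (q : ℝ))))
    by_cases hrM : M ≤ q
    swap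
    · have e : {x | M ≤ q ∧ x ∈ E p ∩ E q ∩ Set.Ioc s t} = ∅ :=
        Set.eq_empty_of_forall_notMem fun x h => hrM h.1
      rw [e, measure_empty]
      exact bot_le
    have e : {x | M ≤ q ∧ x ∈ E p ∩ E q ∩ Set.Ioc s t} = E p ∩ E q ∩ Set.Ioc s t :=
      Set.ext fun x => ⟨fun h => h.2, fun h => ⟨hrM, h⟩⟩
    rw [e]
    have hp1' : 1 ≤ p := hp1
    have hpq' : p < q := hpq
    have hp0 : (0 : ℝ) < p := by exact_mod_cast hp1'
    have hq0 : (0 : ℝ) < q := by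
      have : 0 < q := by omega
      exact_mod_cast this
    have hfin : volume (E p ∩ E q ∩ Set.Ioc s t) ≠ ⊤ :=
      ne_top_of_le_ne_top (by simp) (measure_mono (Set.inter_subset_right (t := Set.Ioc s t)))
    rw [← ENNReal.ofReal_toReal hfin]
    refine ENNReal.ofReal_le_ofReal ?_
    have hpos : 0 < 1 / ((p : ℝ) * q) := by positivity
    rcases le_or_gt M p with h1 | h1
    · refine (hM1 p (by rw [hM] at h1; exact (le_max_left _ _).trans h1) q hpq').trans ?_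
      gcongr
      rw [hK2]
      have : 0 ≤ 6 / A * (t - s) * M := by positivity
      linarith
    · obtain ⟨g1, y', y'', g2⟩ := hM2 q (by rw [hM] at hrM; exact (le_max_right _ _).trans hrM)
      have h2 : volume.real (E p ∩ E q ∩ Set.Ioc s t) ≤ volume.real (E q ∩ Set.Ioc s t) := by
        refine measureReal_mono (Set.inter_subset_inter_left _ Set.inter_subset_right) ?_
        exact ne_top_of_le_ne_top (by simp) (measure_mono (Set.inter_subset_right (t := Set.Ioc s t)))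
      refine h2.trans ((g1 _ _ (Loc_Lc g2.loc)).trans ?_)
      have hpM : (p : ℝ) ≤ M := by exact_mod_cast h1.le
      calc 6 / A * (t - s) / q = 6 / A * (t - s) * p * (1 / ((p : ℝ) * q)) := by field_simp
        _ ≤ 6 / A * (t - s) * M * (1 / ((p : ℝ) * q)) := by gcongr
        _ ≤ K2 * (1 / ((p : ℝ) * q)) := by
          gcongr
          rw [hK2]
          have : 0 ≤ K * (t - s) := by positivity
          linarith
  have hsI : Summable fun r : R => K2 * (1 / (((r : ℕ × ℕ).1 : ℝ) * ((r : ℕ × ℕ).2 : ℝ))) :=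
    hs.mul_left K2
  have htop : ∑' r : R, volume {x | M ≤ (r : ℕ × ℕ).2 ∧ x ∈ E (r : ℕ × ℕ).1 ∩ E (r : ℕ × ℕ).2 ∩
      Set.Ioc s t} ≠ ⊤ := by
    refine ne_top_of_le_ne_top ?_ (ENNReal.tsum_le_tsum hbd)
    rw [← ENNReal.ofReal_tsum_of_nonneg (fun r : R => by positivity) hsI]
    exact ENNReal.ofReal_ne_top
  filter_upwards [ae_finite_setOfPred_mem htop] with x hx hxI
  have h2 : {r : ℕ × ℕ | r ∈ R ∧ (⌊Real.exp (y r.1 x)⌋₊).Prime ∧ (⌊Real.exp (y r.2 x)⌋₊).Prime} ⊆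
      ((fun r : R => (r : ℕ × ℕ)) '' {r : R | x ∈ {x | M ≤ (r : ℕ × ℕ).2 ∧
        x ∈ E (r : ℕ × ℕ).1 ∩ E (r : ℕ × ℕ).2 ∩ Set.Ioc s t}}) ∪ (Set.Iio M ×ˢ Set.Iio M) := by
    rintro ⟨p, q⟩ ⟨g1, g2, g3⟩
    rcases le_or_gt M q with g4 | g4
    · left
      exact ⟨⟨(p, q), g1⟩, ⟨g4, ⟨g2, g3⟩, hs2.trans_le hxI.1, hxI.2.trans ht1.le⟩, rfl⟩
    · right
      have h5 : p < q := (hR _ g1).2
      exact ⟨lt_trans h5 g4, g4⟩
  exact ((hx.image _).union ((Set.finite_Iio M).prod (Set.finite_Iio M))).subset h2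

theorem val_rep {c0 : ℝ} (hc0 : 0 ≤ c0) {h : ℝ → ℝ} {y : ℕ → ℝ → ℝ} (hym : ∀ m, Measurable (y m))
    (hcur : ∀ a0 a1 : ℝ, c0 < a0 → a0 < a1 → ∃ D : ℝ, 0 ≤ D ∧ ∀ᶠ m : ℕ in atTop, ∃ y' y'' : ℝ → ℝ,
      Cur a0 a1 D h m (y m) y' y'') {val : ℕ → ℝ → ℝ}
    (hval : ∀ t, c0 < t → ∀ m : ℕ, 1 ≤ m → 0 < val m t ∧ Real.log (val m t) = y m t)
    {R : Set (ℕ × ℕ)} (hR : ∀ r ∈ R, 1 ≤ r.1 ∧ r.1 < r.2)
    (hs : Summable fun r : R => 1 / (((r : ℕ × ℕ).1 : ℝ) * ((r : ℕ × ℕ).2 : ℝ))) :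
    ∀ᵐ t : ℝ, c0 < t → {r : ℕ × ℕ | r ∈ R ∧ (⌊val r.1 t⌋₊).Prime ∧ (⌊val r.2 t⌋₊).Prime}.Finite := by
  filter_upwards [ae_rep hc0 hym hcur hR hs] with t ht h0
  refine (ht h0).subset ?_
  rintro r ⟨h1, h2, h3⟩
  have g1 := (hR r h1).1
  have g2 : 1 ≤ r.2 := g1.trans (hR r h1).2.le
  refine ⟨h1, ?_, ?_⟩
  · rw [← (hval t h0 r.1 g1).2, Real.exp_log (hval t h0 r.1 g1).1]; exact h2
  · rw [← (hval t h0 r.2 g2).2, Real.exp_log (hval t h0 r.2 g2).1]; exact h3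

/-- the pairs `p < q ≤ p + f p` -/
def close (f : ℕ → ℝ) : Set (ℕ × ℕ) := {r | 1 ≤ r.1 ∧ r.1 < r.2 ∧ (r.2 : ℝ) ≤ r.1 + f r.1}

lemma close_summable {f : ℕ → ℝ} (hf0 : ∀ p, 0 ≤ f p) (hf : Summable fun p : ℕ => f p / (p : ℝ) ^ 2) :
    Summable fun r : close f => 1 / (((r : ℕ × ℕ).1 : ℝ) * ((r : ℕ × ℕ).2 : ℝ)) := by
  classical
  set F : ℕ × ℕ → ℝ := (close f).indicator (fun r => 1 / ((r.1 : ℝ) * (r.2 : ℝ))) with hF
  have hF0 : ∀ r, 0 ≤ F r := fun r => Set.indicator_nonneg (fun _ _ => by positivity) _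
  refine (summable_subtype_iff_indicator (f := fun r : ℕ × ℕ => 1 / ((r.1 : ℝ) * (r.2 : ℝ)))).2 ?_
  show Summable F
  have hsupp : ∀ p : ℕ, ∀ q ∉ Ioc p (p + ⌊f p⌋₊), F (p, q) = 0 := by
    intro p q hq
    rw [hF, Set.indicator_of_notMem]
    rintro ⟨h1, h2, h3⟩
    apply hq
    rw [mem_Ioc]
    refine ⟨h2, ?_⟩
    simp only at h2 h3
    have h4 : ((q - p : ℕ) : ℝ) ≤ f p := by
      rw [Nat.cast_sub h2.le]; linarith
    have h5 : q - p ≤ ⌊f p⌋₊ := Nat.le_floor h4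
    omega
  rw [summable_prod_of_nonneg hF0]
  refine ⟨fun p => summable_of_ne_finset_zero (hsupp p), ?_⟩
  refine Summable.of_nonneg_of_le (fun p => tsum_nonneg fun q => hF0 _) (fun p => ?_) hf
  rw [tsum_eq_sum (hsupp p)]
  rcases Nat.eq_zero_or_pos p with hp | hp
  · subst hp
    simp only [Nat.cast_zero, ne_eq, OfNat.ofNat_ne_zero, not_false_eq_true, zero_pow, div_zero]
    refine le_of_eq (Finset.sum_eq_zero fun q _ => ?_)
    rw [hF, Set.indicator_of_notMem]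
    rintro ⟨h1, _⟩
    simp at h1
  · have hp0 : (0 : ℝ) < p := by exact_mod_cast hp
    calc ∑ q ∈ Ioc p (p + ⌊f p⌋₊), F (p, q) ≤ ∑ _q ∈ Ioc p (p + ⌊f p⌋₊), 1 / (p : ℝ) ^ 2 := by
          refine Finset.sum_le_sum fun q hq => ?_
          rw [mem_Ioc] at hq
          have hpq : (p : ℝ) ≤ q := by exact_mod_cast hq.1.le
          refine (Set.indicator_le_self' (fun _ _ => by positivity) _).trans ?_
          rw [sq]
          gcongr
      _ = ⌊f p⌋₊ * (1 / (p : ℝ) ^ 2) := by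
          rw [Finset.sum_const, Nat.card_Ioc, Nat.add_sub_cancel_left, nsmul_eq_mul]
      _ ≤ f p * (1 / (p : ℝ) ^ 2) := by
          gcongr
          exact Nat.floor_le (hf0 p)
      _ = _ := by ring

/-- both parities -/
theorem hyp_rep {s0 s1 : ℝ} (hs0 : |s0| ≤ 1) (hs1 : |s1| ≤ 1) {H H' H'' : ℝ → ℝ} (hHm : Measurable H)
    (hH : ∀ t, (0 : ℝ) < t → HasDerivAt H (H' t) t) (hH' : ∀ t, (0 : ℝ) < t → HasDerivAt H' (H'' t) t)
    (hH'' : ContinuousOn H'' (Set.Ioi 0)) {val : ℕ → ℝ → ℝ}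
    (hval : ∀ t, 0 < t → ∀ m : ℕ, 1 ≤ m → 0 < val m t ∧
      Real.log (val m t) = yy 2 0 (if Even m then s0 else s1) H m t)
    {R : Set (ℕ × ℕ)} (hR : ∀ r ∈ R, 1 ≤ r.1 ∧ r.1 < r.2)
    (hs : Summable fun r : R => 1 / (((r : ℕ × ℕ).1 : ℝ) * ((r : ℕ × ℕ).2 : ℝ))) :
    ∀ᵐ t : ℝ, 0 < t → {r : ℕ × ℕ | r ∈ R ∧ (⌊val r.1 t⌋₊).Prime ∧ (⌊val r.2 t⌋₊).Prime}.Finite := by
  refine val_rep (h := H') (y := fun m => yy 2 0 (if Even m then s0 else s1) H m) le_rfl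
    (fun m => measurable_yy _ _ _ hHm m) ?_ hval hR hs
  intro a0 a1 h0 h01
  obtain ⟨D0, hD0, hev0⟩ := fam_cur (m1 := 2) (m0 := 0) (s := s0) (c0 := 0) two_pos hs0 (by simp) hH hH'
    hH'' a0 a1 h0 h01
  obtain ⟨D1, hD1, hev1⟩ := fam_cur (m1 := 2) (m0 := 0) (s := s1) (c0 := 0) two_pos hs1 (by simp) hH hH'
    hH'' a0 a1 h0 h01
  refine ⟨max D0 D1, le_max_of_le_left hD0, ?_⟩
  filter_upwards [hev0, hev1] with m g0 g1
  by_cases hm : Even m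
  · refine ⟨yy1 2 0 s0 H' m, yy2 2 0 s0 H'' m, ?_⟩
    simp only [if_pos hm]
    exact Cur.mono_D g0 (le_max_left _ _)
  · refine ⟨yy1 2 0 s1 H' m, yy2 2 0 s1 H'' m, ?_⟩
    simp only [if_neg hm]
    exact Cur.mono_D g1 (le_max_right _ _)

lemma pos_of_sinh {t : ℝ} (h0 : 0 < 2 * Real.sinh t) : 0 < t := by
  by_contra hcon
  push Not at hcon
  have h1 : Real.sinh t ≤ 0 := Real.sinh_nonpos_iff.2 hcon
  linarith

theorem U_rep {A : ℝ → ℝ} (hA : ContDiffOn ℝ 2 A (Set.Ioi 0)) (hApos : ∀ x, 0 < x → 0 < A x)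
    {R : Set (ℕ × ℕ)} (hR : ∀ r ∈ R, 1 ≤ r.1 ∧ r.1 < r.2)
    (hs : Summable fun r : R => 1 / (((r : ℕ × ℕ).1 : ℝ) * ((r : ℕ × ℕ).2 : ℝ))) :
    ∀ᵐ x : ℝ, 0 < x → {r : ℕ × ℕ | r ∈ R ∧ (⌊A x * lU x r.1⌋₊).Prime ∧
      (⌊A x * lU x r.2⌋₊).Prime}.Finite := by
  have hne : ∀ t : ℝ, 2 * Real.cosh t ≠ 0 := fun t => by have := Real.cosh_pos t; positivity
  obtain ⟨H, H', H'', hHm, hHe, hH1, hH2, hH3⟩ := amp (c0 := 0) hA hApos
    (g := fun t => 2 * Real.sinh t) (g' := fun t => 2 * Real.cosh t) (g'' := fun t => 2 * Real.sinh t)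
    (by fun_prop) (fun t => (Real.hasDerivAt_sinh t).const_mul 2)
    (fun t => (Real.hasDerivAt_cosh t).const_mul 2) (by fun_prop) (fun t ht => sinh_pos' ht)
  have h := hyp_rep (s0 := -1) (s1 := 1) (by simp) (by simp)
    (H := fun t => H t - Real.log (2 * Real.cosh t))
    (H' := fun t => H' t - (2 * Real.sinh t / (2 * Real.cosh t)))
    (H'' := fun t => H'' t - ((2 * Real.cosh t * (2 * Real.cosh t) - 2 * Real.sinh t * (2 * Real.sinh t)) /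
      (2 * Real.cosh t) ^ 2)) (by fun_prop)
    (fun t ht => (hH1 t ht).sub (((Real.hasDerivAt_cosh t).const_mul 2).log (hne t)))
    (fun t ht => (hH2 t ht).sub (((Real.hasDerivAt_sinh t).const_mul 2).div
      ((Real.hasDerivAt_cosh t).const_mul 2) (hne t)))
    (hH3.sub (ContinuousOn.div (by fun_prop) (by fun_prop)
      fun t _ => pow_ne_zero 2 (hne t))) (val := fun p t => A (2 * Real.sinh t) * lU (2 * Real.sinh t) p)
    (by
      intro t ht m hm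
      have hs : |(if Even m then (-1 : ℝ) else 1)| ≤ 1 := by split_ifs <;> simp
      obtain ⟨f1, f2⟩ := fac hs ht hm
      have hcl := lU_closed t m
      rw [neg_exp_pow, ← Real.exp_nat_mul] at hcl
      have hc : 0 < 2 * Real.cosh t := by have := Real.cosh_pos t; positivity
      have e0 : Real.exp (m * t) - (if Even m then (1 : ℝ) else -1) * Real.exp (-(m * t)) =
          Real.exp (m * t) + (if Even m then (-1 : ℝ) else 1) * Real.exp (-(m * t)) := by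
        split_ifs <;> ring
      rw [e0, ← f2] at hcl
      have e1 : lU (2 * Real.sinh t) m = Real.exp (m * t) *
          (1 + (if Even m then (-1 : ℝ) else 1) * Real.exp (-(m * (2 * t - 0)))) / (2 * Real.cosh t) := by
        rw [← hcl]; field_simp
      have h2 : 0 < Real.exp (m * t) *
          (1 + (if Even m then (-1 : ℝ) else 1) * Real.exp (-(m * (2 * t - 0)))) :=
        mul_pos (Real.exp_pos _) f1
      have hAp := hApos _ (sinh_pos' ht)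
      have h3 : 0 < lU (2 * Real.sinh t) m := by rw [e1]; exact div_pos h2 hc
      refine ⟨mul_pos hAp h3, ?_⟩
      unfold yy
      rw [Real.log_mul hAp.ne' h3.ne', e1, Real.log_div h2.ne' hc.ne',
        Real.log_mul (Real.exp_pos _).ne' f1.ne', Real.log_exp]
      beta_reduce
      rw [hHe t ht]
      ring) hR hs
  exact ae_of_sinh (Q := fun x => 0 < x → {r : ℕ × ℕ | r ∈ R ∧ (⌊A x * lU x r.1⌋₊).Prime ∧
      (⌊A x * lU x r.2⌋₊).Prime}.Finite) (by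
    filter_upwards [h] with t ht h0
    exact ht (pos_of_sinh h0))

theorem V_rep {A : ℝ → ℝ} (hA : ContDiffOn ℝ 2 A (Set.Ioi 0)) (hApos : ∀ x, 0 < x → 0 < A x)
    {R : Set (ℕ × ℕ)} (hR : ∀ r ∈ R, 1 ≤ r.1 ∧ r.1 < r.2)
    (hs : Summable fun r : R => 1 / (((r : ℕ × ℕ).1 : ℝ) * ((r : ℕ × ℕ).2 : ℝ))) :
    ∀ᵐ x : ℝ, 0 < x → {r : ℕ × ℕ | r ∈ R ∧ (⌊A x * lV x r.1⌋₊).Prime ∧
      (⌊A x * lV x r.2⌋₊).Prime}.Finite := by
  obtain ⟨H, H', H'', hHm, hHe, hH1, hH2, hH3⟩ := amp (c0 := 0) hA hApos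
    (g := fun t => 2 * Real.sinh t) (g' := fun t => 2 * Real.cosh t) (g'' := fun t => 2 * Real.sinh t)
    (by fun_prop) (fun t => (Real.hasDerivAt_sinh t).const_mul 2)
    (fun t => (Real.hasDerivAt_cosh t).const_mul 2) (by fun_prop) (fun t ht => sinh_pos' ht)
  have h := hyp_rep (s0 := 1) (s1 := -1) (by simp) (by simp) hHm hH1 hH2 hH3
    (val := fun p t => A (2 * Real.sinh t) * lV (2 * Real.sinh t) p)
    (by
      intro t ht m hm
      have hs : |(if Even m then (1 : ℝ) else -1)| ≤ 1 := by split_ifs <;> simp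
      obtain ⟨f1, f2⟩ := fac hs ht hm
      have hcl := lV_closed t m
      rw [neg_exp_pow, ← Real.exp_nat_mul, ← f2] at hcl
      have h2 : 0 < Real.exp (m * t) *
          (1 + (if Even m then (1 : ℝ) else -1) * Real.exp (-(m * (2 * t - 0)))) :=
        mul_pos (Real.exp_pos _) f1
      have hAp := hApos _ (sinh_pos' ht)
      rw [hcl]
      refine ⟨mul_pos hAp h2, ?_⟩
      unfold yy
      rw [Real.log_mul hAp.ne' h2.ne', Real.log_mul (Real.exp_pos _).ne' f1.ne', Real.log_exp, hHe t ht]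
      ring) hR hs
  exact ae_of_sinh (Q := fun x => 0 < x → {r : ℕ × ℕ | r ∈ R ∧ (⌊A x * lV x r.1⌋₊).Prime ∧
      (⌊A x * lV x r.2⌋₊).Prime}.Finite) (by
    filter_upwards [h] with t ht h0
    exact ht (pos_of_sinh h0))

/-- from pairs to gaps -/
lemma gap_of {f : ℕ → ℝ} {P : ℕ → Prop}
    (h : {r : ℕ × ℕ | r ∈ close f ∧ P r.1 ∧ P r.2}.Finite) :
    ∃ M : ℕ, ∀ p q : ℕ, M ≤ p → p < q → P p → P q → (p : ℝ) + f p < q := by
  obtain ⟨B, hB⟩ := (h.image Prod.fst).bddAbove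
  refine ⟨B + 1, fun p q hp hpq h1 h2 => ?_⟩
  by_contra hcon
  push Not at hcon
  have : p ≤ B := hB ⟨(p, q), ⟨⟨by omega, hpq, hcon⟩, h1, h2⟩, rfl⟩
  omega

end Pool.Agent.Q267.DV
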